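import Mathlib

/-!
MP_a4f561_co (EpsPages): bars, routes, states, the law with star coins, harmful steps, records (pockets).
Text: a4f561_h26_proof_v2.md. All definitions of the development are here.
-/

set_option autoImplicit false

namespace Pool.Agent.W_a4f561_h26

variable {V : Type}

/-- Bars: heights `r`, life times `[b, t]`; `bot`, `top` are alive at all times `≤ N`. `fl` is a flag for the mirror. -/
structure Bars (V : Type) where
  r : V → ℕ
  b : V → ℕ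
  t : V → ℕ
  M : ℕ
  N : ℕ
  bot : V
  top : V
  fl : Bool
  r_inj : Function.Injective r
  t_inj : Function.Injective t
  r_le : ∀ v, r v ≤ M
  r_bot : ∀ v, v ≠ bot → r bot < r v
  r_top : ∀ v, v ≠ top → r v < r top
  ne : bot ≠ top
  bt : ∀ v, b v ≤ t v
  b_bot : b bot = 0
  b_top : b top = 0
  t_bot : N < t bot
  t_top : N < t top
  t_bot' : t bot ≤ N + 2
  t_top' : t top ≤ N + 2
  b_in : ∀ v, v ≠ bot → v ≠ top → 1 ≤ b v
  t_in : ∀ v, v ≠ bot → v ≠ top → t v < N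
  nb : ∀ u v, v ≠ bot → v ≠ top → b u ≠ t v + 1

/-- The mirror image (upside down). -/
def Bars.mir (G : Bars V) : Bars V where
  r v := G.M - G.r v
  b := G.b
  t := G.t
  M := G.M
  N := G.N
  bot := G.top
  top := G.bot
  fl := !G.fl
  r_inj := by
    intro u v h
    apply G.r_inj
    have h1 := G.r_le u
    have h2 := G.r_le v
    have h3 : G.M - G.r u = G.M - G.r v := h
    omega
  t_inj := G.t_inj
  r_le := fun v => Nat.sub_le _ _
  r_bot := by
    intro v hv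
    have h1 := G.r_top v hv
    have h2 := G.r_le G.top
    show G.M - G.r G.top < G.M - G.r v
    omega
  r_top := by
    intro v hv
    have h1 := G.r_bot v hv
    have h2 := G.r_le v
    show G.M - G.r v < G.M - G.r G.bot
    omega
  ne := G.ne.symm
  bt := G.bt
  b_bot := G.b_top
  b_top := G.b_bot
  t_bot := G.t_top
  t_top := G.t_bot
  t_bot' := G.t_top'
  t_top' := G.t_bot'
  b_in := fun v h1 h2 => G.b_in v h2 h1
  t_in := fun v h1 h2 => G.t_in v h2 h1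
  nb := fun u v h1 h2 => G.nb u v h2 h1

/-- `v` is alive at time `τ`. -/
def Bars.al (G : Bars V) (v : V) (τ : ℕ) : Prop := G.b v ≤ τ ∧ τ ≤ G.t v

/-- inner vertex -/
def Bars.inn (G : Bars V) (v : V) : Prop := v ≠ G.bot ∧ v ≠ G.top

/-- The upper neighbour of `x` at time `τ`. -/
noncomputable def Bars.ub (G : Bars V) (x : V) (τ : ℕ) : V := by
  classical
  exact if h : ∃ u, G.al u τ ∧ G.r x < G.r u ∧ ∀ u', G.al u' τ → G.r x < G.r u' → G.r u ≤ G.r u'
    then h.choose else G.top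

/-- The lower neighbour of `x` at time `τ`. -/
noncomputable def Bars.lb (G : Bars V) (x : V) (τ : ℕ) : V := G.mir.ub x τ

/-- The upper neighbour of `v` at its death. -/
noncomputable def Bars.up (G : Bars V) (v : V) : V := G.ub v (G.t v)

/-- The lower neighbour of `v` at its death. -/
noncomputable def Bars.lo (G : Bars V) (v : V) : V := G.lb v (G.t v)

/-- `x`, `y` are consecutive at some time. -/
def Bars.vis (G : Bars V) (x y : V) : Prop :=
  ∃ τ, τ ≤ G.N ∧ G.al x τ ∧ G.al y τ ∧ G.r x < G.r y ∧ ∀ u, G.al u τ → ¬ (G.r x < G.r u ∧ G.r u < G.r y)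

/-- `π` is a choice function: every inner vertex goes to a neighbour at its death. -/
def Ch (G : Bars V) (π : V → V) : Prop :=
  π G.bot = G.bot ∧ π G.top = G.top ∧ ∀ v, G.inn v → π v = G.lo v ∨ π v = G.up v

/-- `v` is on the route of `u`. -/
def Orb (π : V → V) (u v : V) : Prop := ∃ k : ℕ, π^[k] u = v

/-- The host of `u` at time `τ`. -/
noncomputable def host (G : Bars V) (π : V → V) (u : V) (τ : ℕ) : V :=
  (fun w => if G.t w < τ then π w else w)^[τ] u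

/-- `q = (x, h)` is an unmerged D-pair of `p` before time `T`, with a D-step `v → x`, `v ∈ A`. -/
def DPr (G : Bars V) (π : V → V) (A : Set V) (p : V) (T : ℕ) (q : V × V) : Prop :=
  ∃ v, Orb π p v ∧ v ∈ A ∧ G.inn v ∧ π v = G.lo v ∧ q.1 = G.lo v ∧ G.t q.1 < T ∧
    (∃ τ, G.t v < τ ∧ τ ≤ G.t q.1 ∧ q.2 = G.ub q.1 τ) ∧
    ∀ z, Orb π p z → Orb π q.2 z → T ≤ G.t z

/-- At most `C` unmerged D-pairs with different hosts and different heads (D-steps from `A`). -/
def CB (G : Bars V) (π : V → V) (A : Set V) (C : ℕ) : Prop :=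
  ∀ (p : V) (T : ℕ) (P : Finset (V × V)), T ≤ G.N → (∀ q ∈ P, DPr G π A p T q) →
    (∀ q ∈ P, ∀ q' ∈ P, q.1 = q'.1 → q = q') → (∀ q ∈ P, ∀ q' ∈ P, q.2 = q'.2 → q = q') → P.card ≤ C

/-- The longer-lived neighbour of `v` at its death. -/
noncomputable def Bars.zz (G : Bars V) (v : V) : V := by
  classical exact if G.t (G.lo v) < G.t (G.up v) then G.up v else G.lo v

/-- The shorter-lived neighbour of `v` at its death. -/
noncomputable def Bars.oo (G : Bars V) (v : V) : V := by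
  classical exact if G.t (G.lo v) < G.t (G.up v) then G.lo v else G.up v

/-- The coin of `v`: the pair (host, side). -/
noncomputable def Bars.coin (G : Bars V) (v : V) : V × Bool :=
  (G.zz v, xor G.fl (decide (G.r (G.zz v) < G.r v)))

/-- The coin of the tokens which come to `y` from below. -/
def Bars.blw (G : Bars V) (y : V) : V × Bool := (y, G.fl)

/-- A pocket: path with start `q`, barrier `y` above it, first and last touch `a`, `c`, and the set `S` drawn before. -/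
structure Rec (V : Type) where
  q : V
  y : V
  a : ℕ
  c : ℕ
  S : Set V

/-- State: `S` drawn, `Dec` declared, `Lat` the later part of `S`, pockets above and below paths. -/
structure St (V : Type) where
  S : Set V
  Dec : Set V
  Lat : Set V
  pi : V → V
  RD : Set (Rec V)
  RU : Set (Rec V)

/-- The mirror image of a state. -/
def St.mir (σ : St V) : St V := { σ with RD := σ.RU, RU := σ.RD }

/-- The same state with another later part. -/
def St.setLat (σ : St V) (L : Set V) : St V := { σ with Lat := L }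

/-- The random forest. -/
noncomputable def lam (G : Bars V) (σ : St V) (ω : V × Bool → Bool) (v : V) : V := by
  classical
  exact if v ∈ σ.S ∪ σ.Dec then σ.pi v
    else if G.zz v ∈ σ.S \ σ.Lat then G.zz v
    else if ω (G.coin v) = true then G.zz v else G.oo v

/-- `v` asks its coin. -/
def ask (G : Bars V) (σ : St V) (v : V) : Prop := v ∉ σ.S ∧ v ∉ σ.Dec ∧ G.zz v ∉ σ.S \ σ.Lat

/-- Coins overridden by a partial assignment. -/
def ov (m : V × Bool → Option Bool) (ω : V × Bool → Bool) : V × Bool → Bool :=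
  fun κ => (m κ).getD (ω κ)

/-- Probability with the coins of `m` fixed. -/
noncomputable def pr [Fintype V] [DecidableEq V] (m : V × Bool → Option Bool)
    (A : (V × Bool → Bool) → Prop) : ℝ := by
  classical
  exact ((Finset.univ.filter (fun ω : V × Bool → Bool => A (ov m ω))).card : ℝ) /
    (2 : ℝ) ^ (Fintype.card (V × Bool))

/-- The time of the first long head of the D-step `v → lo v`. -/
noncomputable def Bars.tau1 (G : Bars V) (v : V) : ℕ :=
  sInf {τ | G.t v < τ ∧ G.t (G.lo v) < G.t (G.ub (G.lo v) τ)}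

/-- The first long head of the D-step `v → lo v`. -/
noncomputable def Bars.flh (G : Bars V) (v : V) : V := G.ub (G.lo v) (G.tau1 v)

/-- The first long head of `v → lo v` is the barrier of a declared vertex. -/
def fb (G : Bars V) (σ : St V) (v : V) : Prop :=
  ∃ u, u ∈ σ.Dec ∧ u ∉ σ.S ∧ σ.pi u = G.lo u ∧ G.lo u = G.lo v ∧ G.t u + 1 = G.tau1 v ∧ G.up u = G.flh v

section Route

variable (G : Bars V) (σ : St V) (m : V × Bool → Option Bool) (ω : V × Bool → Bool) (z : V)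

/-- `v` is on the new part of the route of `z`. -/
def OnB (v : V) : Prop := Orb (lam G σ ω) z v ∧ v ∉ σ.S

/-- `v` makes a D-step (to a vertex outside of `S`) on the route of `z`. -/
def Dst (v : V) : Prop := OnB G σ ω z v ∧ lam G σ ω v = G.lo v ∧ G.lo v ∉ σ.S

/-- The route of `z` enters `S` in `E`. -/
def Suc (E : Set V) : Prop :=
  ∃ e ∈ E, e ∈ σ.S ∧ Orb (lam G σ ω) z e ∧ ∀ u, Orb (lam G σ ω) z u → u ∈ σ.S → G.t e ≤ G.t u

/-- The memory at `v`: initial memory and the coins asked before `v`. -/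
noncomputable def mem (v : V) : V × Bool → Option Bool := by
  classical
  exact fun κ => if ∃ v', OnB G σ ω z v' ∧ G.t v' < G.t v ∧ ask G σ v' ∧ G.coin v' = κ then some (ω κ) else m κ

/-- The memory at `v` and the value `c` of the coin of `v`. -/
noncomputable def memc (v : V) (c : Bool) : V × Bool → Option Bool := by
  classical
  exact fun κ => if κ = G.coin v then some c else mem G σ m ω z v κ

/-- The first long head of `v → lo v` was not seen before. -/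
def nw (v : V) : Prop := ∀ v', Dst G σ ω z v' → G.t v' < G.t v → G.flh v' ≠ G.flh v

/-- The alternative branch reaches `w`. -/
noncomputable def prb [Fintype V] [DecidableEq V] (v w : V) : ℝ :=
  pr (memc G σ m ω z v false) (fun ω' => Orb (lam G σ ω') (G.up v) w)

/-- The first long head can be closed at `w`. -/
noncomputable def pra [Fintype V] [DecidableEq V] (v w : V) : ℝ := by
  classical
  exact if G.zz v = G.up v then pr (mem G σ m ω z v) (fun ω' => Orb (lam G σ ω') (G.up v) w)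
    else pr (memc G σ m ω z v false)
      (fun ω' => Orb (lam G σ ω') (G.up v) w ∧ ¬ Orb (lam G σ ω') (G.up v) (G.lo v))

/-- `v` carries a beta-object. -/
def obB (v : V) : Prop := Dst G σ ω z v ∧ ask G σ v ∧ G.zz v = G.lo v

/-- `v` carries an alpha-object. -/
def obA (v : V) : Prop :=
  Dst G σ ω z v ∧ G.flh v ∉ σ.S \ σ.Lat ∧ nw G σ ω z v ∧ m (G.blw (G.flh v)) = none ∧ ¬ fb G σ v

/-- `v` carries a step-object. -/
def obS (v : V) : Prop := Dst G σ ω z v ∧ G.flh v ∈ σ.S \ σ.Lat ∧ ¬ fb G σ v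

/-- `v` is harmful for `w`. -/
def hrm [Fintype V] [DecidableEq V] (δ : ℝ) (w v : V) : Prop :=
  (obB G σ ω z v ∧ prb G σ m ω z v w < δ) ∨ obS G σ ω z v ∨ (obA G σ m ω z v ∧ pra G σ m ω z v w < δ)

/-- The number of harmful steps before `w`. -/
noncomputable def cnt [Fintype V] [DecidableEq V] (δ : ℝ) (w : V) : ℕ :=
  Set.ncard {v | G.t v < G.t w ∧ hrm G σ m ω z δ w v}

/-- `w` is the deadline of the beta-object of `v`. -/
def dlB [Fintype V] [DecidableEq V] (δ : ℝ) (v w : V) : Prop :=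
  obB G σ ω z v ∧ OnB G σ ω z w ∧ G.t v < G.t w ∧ δ ≤ prb G σ m ω z v w ∧
    ∀ w', OnB G σ ω z w' → G.t v < G.t w' → G.t w' < G.t w → prb G σ m ω z v w' < δ

/-- `w` is the deadline of the alpha-object of `v`. -/
def dlA [Fintype V] [DecidableEq V] (δ : ℝ) (v w : V) : Prop :=
  obA G σ m ω z v ∧ OnB G σ ω z w ∧ G.t v < G.t w ∧ δ ≤ pra G σ m ω z v w ∧
    ∀ w', OnB G σ ω z w' → G.t v < G.t w' → G.t w' < G.t w → pra G σ m ω z v w' < δ

/-- `y` is touched by the route at time `τ` (and outlives the host). -/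
def Tch (y : V) (τ : ℕ) : Prop :=
  G.b z ≤ τ ∧ τ ≤ G.N ∧ host G (lam G σ ω) z τ ∉ σ.S ∧ G.ub (host G (lam G σ ω) z τ) τ = y ∧
    G.t (host G (lam G σ ω) z τ) < G.t y

end Route

/-- `δ` as a function of `K`. -/
noncomputable def dl (K : ℕ) : ℝ := (1 / 1000) * (1 / 2 : ℝ) ^ K * (100 / 101 : ℝ) ^ (2 * (K + 1))

/-- `R` is a valid record (pocket above the path of `R.q`). -/
structure IsRec (G : Bars V) (σ : St V) (R : Rec V) : Prop where
  q_mem : R.q ∈ σ.S
  q_new : R.q ∉ R.S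
  S_sub : R.S ⊆ σ.S
  S_cl : ∀ v ∈ R.S, σ.pi v ∈ R.S
  b_le : G.b R.q ≤ R.a
  ac : R.a ≤ R.c
  cN : R.c ≤ G.N
  y_b : G.b R.y ≤ R.a
  y_t : R.c < G.t R.y
  hostS : ∀ τ, R.a ≤ τ → τ ≤ R.c → host G σ.pi R.q τ ∉ R.S
  ta : G.ub (host G σ.pi R.q R.a) R.a = R.y
  tc : G.ub (host G σ.pi R.q R.c) R.c = R.y
  ya : G.t (host G σ.pi R.q R.a) < G.t R.y
  yc : G.t (host G σ.pi R.q R.c) < G.t R.y
  reg : ∀ u ∈ R.S, ∀ τ, R.a ≤ τ → τ ≤ R.c → G.al u τ → G.r (host G σ.pi R.q τ) < G.r u → G.r R.y ≤ G.r u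
  dec : ∀ u, G.inn u → R.a ≤ G.t u → G.t u < R.c → G.r (host G σ.pi R.q (G.t u)) < G.r u → G.up u = R.y →
    u ∈ σ.S ∪ σ.Dec ∧ σ.pi u = G.lo u
  att : R.y ∈ R.S → ∀ v ∈ R.S, σ.pi v = R.y → R.c ≤ G.t v

/-- `u` is declared by the record `R`. -/
def DecBy (G : Bars V) (σ : St V) (R : Rec V) (u : V) : Prop :=
  R.a < G.t u ∧ G.t u < R.c ∧ G.r (host G σ.pi R.q (G.t u)) < G.r u ∧ G.up u = R.y ∧ σ.pi u = G.lo u

/-- The invariant of a state. -/
structure Inv (G : Bars V) (σ : St V) : Prop where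
  bot_mem : G.bot ∈ σ.S
  top_mem : G.top ∈ σ.S
  ch : Ch G σ.pi
  cl : ∀ v ∈ σ.S, σ.pi v ∈ σ.S
  lat_sub : σ.Lat ⊆ σ.S
  lat_bot : G.bot ∉ σ.Lat
  lat_top : G.top ∉ σ.Lat
  recD : ∀ R ∈ σ.RD, IsRec G σ R
  recU : ∀ R ∈ σ.RU, IsRec G.mir σ R
  latD : ∀ R ∈ σ.RD, R.q ∉ σ.Lat
  latU : ∀ R ∈ σ.RU, R.q ∉ σ.Lat
  decl : ∀ u ∈ σ.Dec, u ∉ σ.S → (∃ R ∈ σ.RD, DecBy G σ R u) ∨ (∃ R ∈ σ.RU, DecBy G.mir σ R u)

/-- No vertex of `S` goes to the later part before time `Tm`. -/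
def Lt (G : Bars V) (σ : St V) (Tm : ℕ) : Prop := ∀ v ∈ σ.S, σ.pi v ∈ σ.Lat → Tm ≤ G.t v

/-- `σ'` extends `σ`. -/
structure Le (σ σ' : St V) : Prop where
  S : σ.S ⊆ σ'.S
  Dec : σ.Dec ⊆ σ'.Dec
  pi : ∀ v ∈ σ.S ∪ σ.Dec, σ'.pi v = σ.pi v
  RD : σ.RD ⊆ σ'.RD
  RU : σ.RU ⊆ σ'.RU

/-- `π` is a final choice function of `σ`. -/
def Fin' (G : Bars V) (σ : St V) (π : V → V) : Prop := Ch G π ∧ ∀ v ∈ σ.S ∪ σ.Dec, π v = σ.pi v

/-- The times `(i, j]` are in one block of length `B`. -/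
def blk (B i j : ℕ) : Prop := ∃ c, c * B ≤ i ∧ j ≤ (c + 1) * B

/-- The result of a call of EXTEND: new state `σ'` with start `z`, exit in `E`, cost `C`, times in `(tl, Tm)`. -/
structure Res (G : Bars V) (σ σ' : St V) (tl Tm : ℕ) (z : V) (E : Set V) (C : ℕ) : Prop where
  le : Le σ σ'
  inv : Inv G σ'
  lat : σ'.Lat = σ.Lat
  start : z ∈ σ'.S
  exit : ∃ a, a ∈ σ'.S \ σ.S ∧ σ'.pi a ∈ E ∧ ∀ u ∈ σ'.S \ σ.S, Orb σ'.pi u a
  time : ∀ u ∈ σ'.S \ σ.S, tl < G.t u ∧ G.t u < Tm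
  recD : ∀ R ∈ σ'.RD, R ∉ σ.RD → σ.S ⊆ R.S
  recU : ∀ R ∈ σ'.RU, R ∉ σ.RU → σ.S ⊆ R.S
  cD : ∀ π, Fin' G σ' π → CB G π (σ'.S \ σ.S) C
  cU : ∀ π, Fin' G σ' π → CB G.mir π (σ'.S \ σ.S) C

/-- EXTEND on blocks of length `B`: success probability `κ`, memory size `m`, cost `C`. -/
def EXT [Fintype V] [DecidableEq V] (G : Bars V) (B : ℕ) (κ : ℝ) (m C : ℕ) : Prop :=
  ∀ (σ : St V) (tl Tm : ℕ) (z : V) (m0 : V × Bool → Option Bool) (E : Set V),
    Inv G σ → Lt G σ Tm → z ∉ σ.S → tl < G.t z → blk B tl Tm → E ⊆ σ.S \ σ.Lat → (∀ e ∈ E, G.t e ≤ Tm) →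
    (∀ c, m0 c ≠ some true) → Set.ncard {c | m0 c ≠ none} ≤ m →
    κ ≤ pr m0 (fun ω => Suc G σ ω z E) →
    ∃ σ', Res G σ σ' tl Tm z E C

/-- The restricted memory at `v`: rejected hosts which are alive after the death of `v`. -/
noncomputable def mr (G : Bars V) (σ : St V) (m : V × Bool → Option Bool) (ω : V × Bool → Bool) (z v : V) :
    V × Bool → Option Bool := by
  classical
  exact fun κ => if mem G σ m ω z v κ = some false ∧ G.t v < G.t κ.1 then some false else none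

/-- A drawn path: the situation after the trunk lemma. -/
structure Ctx [Fintype V] [DecidableEq V] (G : Bars V) (σ : St V) (m0 : V × Bool → Option Bool)
    (ω : V × Bool → Bool) (z : V) (K Tm : ℕ) (E : Set V) : Prop where
  inv : Inv G σ
  lt : Lt G σ Tm
  zS : z ∉ σ.S
  ES : E ⊆ σ.S \ σ.Lat
  tE : ∀ e ∈ E, G.t e ≤ Tm
  m0t : ∀ c, m0 c ≠ some true
  ext : ∀ κ b, m0 κ = some b → ω κ = b
  suc : Suc G σ ω z E
  nD : ∀ w, OnB G σ ω z w → cnt G σ m0 ω z (dl K) w ≤ K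
  nU : ∀ w, OnB G σ ω z w → cnt G.mir σ.mir m0 ω z (dl K) w ≤ K

/-- The state `σ1` after drawing the path and declaring its pockets. -/
structure Dr (G : Bars V) (σ : St V) (ω : V × Bool → Bool) (z : V) (σ1 : St V) : Prop where
  le : Le σ σ1
  inv : Inv G σ1
  lat : σ1.Lat = σ.Lat
  S : σ1.S = σ.S ∪ {v | OnB G σ ω z v}
  pi : ∀ v, OnB G σ ω z v → σ1.pi v = lam G σ ω v
  newD : ∀ R ∈ σ1.RD, R ∉ σ.RD → R.q = z ∧ R.S = σ.S ∧ R.y ∉ σ.S \ σ.Lat ∧ Tch G σ ω z R.y R.a ∧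
    Tch G σ ω z R.y R.c
  newU : ∀ R ∈ σ1.RU, R ∉ σ.RU → R.q = z ∧ R.S = σ.S ∧ R.y ∉ σ.S \ σ.Lat ∧ Tch G.mir σ.mir ω z R.y R.a ∧
    Tch G.mir σ.mir ω z R.y R.c
  exD : ∀ y, y ∉ σ.S \ σ.Lat → ∀ a c, a ≤ c → Tch G σ ω z y a → Tch G σ ω z y c →
    ∃ R ∈ σ1.RD, R.q = z ∧ R.y = y ∧ R.a ≤ a ∧ c ≤ R.c
  exU : ∀ y, y ∉ σ.S \ σ.Lat → ∀ a c, a ≤ c → Tch G.mir σ.mir ω z y a → Tch G.mir σ.mir ω z y c →
    ∃ R ∈ σ1.RU, R.q = z ∧ R.y = y ∧ R.a ≤ a ∧ c ≤ R.c

/-- The state `σk` after some antennas with deadlines `≤ T` were drawn. -/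
structure Stg (G : Bars V) (σ : St V) (ω : V × Bool → Bool) (z : V) (σ1 σk : St V) (T : ℕ) : Prop where
  le : Le σ1 σk
  inv : Inv G σk
  lat : σk.Lat = σ.Lat
  recD : ∀ R ∈ σk.RD, R ∉ σ1.RD → σ1.S ⊆ R.S
  recU : ∀ R ∈ σk.RU, R ∉ σ1.RU → σ1.S ⊆ R.S
  hit : ∀ u ∈ σk.S \ σ1.S, ∃ v, OnB G σ ω z v ∧ G.t v ≤ T ∧ Orb σk.pi u v

/-- The state for a call with deadline `w`. -/
def call (G : Bars V) (σ : St V) (ω : V × Bool → Bool) (z : V) (σk : St V) (w : V) : St V :=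
  σk.setLat (σ.Lat ∪ {u | OnB G σ ω z u ∧ G.t w < G.t u})

/-- The success set of a call with deadline `w`. -/
def tgt (G : Bars V) (σ : St V) (ω : V × Bool → Bool) (z : V) (σ1 σk : St V) (w : V) : Set V :=
  {u | OnB G σ ω z u ∧ G.t u ≤ G.t w} ∪ (σk.S \ σ1.S)

/-- The alpha-event of `v` is satisfied with deadline `w`. -/
def SatA (G : Bars V) (σ : St V) (ω : V × Bool → Bool) (z : V) (σk : St V) (v w : V) : Prop :=
  G.flh v ∈ σk.S ∧ ∃ u, OnB G σ ω z u ∧ G.t u ≤ G.t w ∧ Orb σk.pi (G.flh v) u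

/-- The beta-event of `v` is satisfied with deadline `w`. -/
def SatB (G : Bars V) (σ : St V) (ω : V × Bool → Bool) (z : V) (σk : St V) (v w : V) : Prop :=
  ∀ π, Fin' G σk π → ∀ τ, G.t v < τ → τ < G.tau1 v →
    ∃ u, OnB G σ ω z u ∧ G.t u ≤ G.t w ∧ Orb π (G.ub (G.lo v) τ) u

/-- Event `e = (side, kind, v)` with deadline `w`. -/
def Ev [Fintype V] [DecidableEq V] (G : Bars V) (σ : St V) (m0 : V × Bool → Option Bool)
    (ω : V × Bool → Bool) (z : V) (δ : ℝ) (e : Bool × Bool × V) (w : V) : Prop :=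
  match e with
  | (false, false, v) => dlA G σ m0 ω z δ v w
  | (false, true, v) => dlB G σ m0 ω z δ v w
  | (true, false, v) => dlA G.mir σ.mir m0 ω z δ v w
  | (true, true, v) => dlB G.mir σ.mir m0 ω z δ v w

/-- Event `e` is satisfied with deadline `w`. -/
def Sat (G : Bars V) (σ : St V) (ω : V × Bool → Bool) (z : V) (σk : St V) (e : Bool × Bool × V) (w : V) : Prop :=
  match e with
  | (false, false, v) => SatA G σ ω z σk v w
  | (false, true, v) => SatB G σ ω z σk v w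
  | (true, false, v) => SatA G.mir σ.mir ω z σk.mir v w
  | (true, true, v) => SatB G.mir σ.mir ω z σk.mir v w

/-- The trees drawn so far: tree `i` has event `ev i` and deadline `dt i`; `C` is the cost of a tree. -/
structure Tr [Fintype V] [DecidableEq V] (G : Bars V) (σ : St V) (m0 : V × Bool → Option Bool)
    (ω : V × Bool → Bool) (z : V) (δ : ℝ) (σ1 σk : St V) (C T : ℕ) (idx : V → ℕ) (q : ℕ)
    (ev : ℕ → Bool × Bool × V) (dt : ℕ → V) : Prop where
  stg : Stg G σ ω z σ1 σk T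
  lt : ∀ u ∈ σk.S \ σ1.S, idx u < q
  nxt : ∀ u ∈ σk.S \ σ1.S, σk.pi u ∈ σk.S \ σ1.S → idx (σk.pi u) ≤ idx u
  tm : ∀ u ∈ σk.S \ σ1.S, G.t (ev (idx u)).2.2 < G.t u ∧ G.t u < G.t (dt (idx u))
  mono : ∀ i j, i ≤ j → j < q → G.t (dt i) ≤ G.t (dt j)
  dT : ∀ i, i < q → G.t (dt i) ≤ T
  same : ∀ i j, i < j → j < q → ev i = ev j → ∀ u ∈ σk.S \ σ1.S, ∀ u' ∈ σk.S \ σ1.S,
    idx u = i → idx u' = j → G.t u < G.t u'
  cost : ∀ i, i < q → ∀ π, Fin' G σk π → CB G π {u | u ∈ σk.S \ σ1.S ∧ idx u = i} C ∧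
    CB G.mir π {u | u ∈ σk.S \ σ1.S ∧ idx u = i} C
  isev : ∀ i, i < q → Ev G σ m0 ω z δ (ev i) (dt i)

/-- own cost of a path -/
def own (K m B : ℕ) : ℕ := 3 * ((K + 1) * (B + 1)) + 2 * m + 3

end Pool.Agent.W_a4f561_h26
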