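import Pool.Agent.W_a4f561_h26.Bas
import Pool.Agent.W_a4f561_E.Red16

/-!
MP_a4f561_co (EpsPages): Lemma 1, the reduction. STUB (helper16).
-/

set_option autoImplicit false

namespace Pool.Agent.W_a4f561_h26

variable {V : Type} {G : Bars V}

/-- LEMMA 1: the order `σ` of a choice function; twists have at most `3 + 4 C` edges. -/
theorem red [Fintype V] (G : Bars V) {π : V → V} (hπ : Ch G π) {C : ℕ} (h1 : CB G π Set.univ C)
    (h2 : CB G.mir π Set.univ C) :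
    ∃ σ : V → ℕ, Function.Injective σ ∧ (∀ x y, G.vis x y → σ x < σ y) ∧
      ∀ T : Finset (V × V), (∀ e ∈ T, G.vis e.1 e.2) →
        (∀ e ∈ T, ∀ e' ∈ T, e ≠ e' →
          (σ e.1 < σ e'.1 ∧ σ e'.1 < σ e.2 ∧ σ e.2 < σ e'.2) ∨
          (σ e'.1 < σ e.1 ∧ σ e.1 < σ e'.2 ∧ σ e'.2 < σ e.2)) → T.card ≤ 3 + 4 * C :=
  Pool.Agent.W_a4f561_E.Red16.red G hπ h1 h2

end Pool.Agent.W_a4f561_h26
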