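import Pool.Agent.W_a4f561_E.Trk34b

/-!
MP_a4f561_co (EpsPages): trunk corollary, closability, memory bound (helper34; proofs in W_a4f561_E/Trk34, Trk34b).
-/

set_option autoImplicit false

namespace Pool.Agent.W_a4f561_h26

variable {V : Type} [Fintype V] [DecidableEq V] {G : Bars V}

omit [Fintype V] [DecidableEq V] in
/-- A declared vertex: see `harm`. -/
theorem inv_hD {σ : St V} (hI : Inv G σ) :
    ∀ u ∈ σ.Dec, u ∉ σ.S → σ.pi u = G.lo u → G.lo u ∉ σ.S → G.t (G.lo u) < G.t (G.up u) := T34b.inv_hD hI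

/-- TRUNK COROLLARY: a good successful route. -/
theorem trunk (G : Bars V) (σ : St V) (hI : Inv G σ) {Tm : ℕ} (hL : Lt G σ Tm) {z : V} (hz : z ∉ σ.S)
    (m0 : V × Bool → Option Bool) (hm : ∀ c, m0 c ≠ some true) {E : Set V} (hE : E ⊆ σ.S \ σ.Lat)
    (htE : ∀ e ∈ E, G.t e ≤ Tm) {κ : ℝ} {K : ℕ}
    (hK : 2 * (Fintype.card V : ℝ) * (100 / 101 : ℝ) ^ (K + 1) < κ)
    (hκ : κ ≤ pr m0 (fun ω => Suc G σ ω z E)) : ∃ ω, Ctx G σ m0 ω z K Tm E :=
  T34b.trunk G σ hI hL hz m0 hm hE htE hK hκ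

/-- Closability of the first long head (squeezing between the path and the branch, in the same `ω'`). -/
theorem clA {σ : St V} {m0 : V × Bool → Option Bool} {ω : V × Bool → Bool} {z : V} {K Tm : ℕ} {E : Set V}
    (h : Ctx G σ m0 ω z K Tm E) {v w : V} (ha : obA G σ m0 ω z v) (hw : OnB G σ ω z w) (hvw : G.t v < G.t w)
    (hp : 0 < pra G σ m0 ω z v w) :
    pra G σ m0 ω z v w ≤ pr (mem G σ m0 ω z v)
      (fun ω' => ∃ u, OnB G σ ω z u ∧ G.t u ≤ G.t w ∧ Orb (lam G σ ω') (G.flh v) u) :=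
  T34b.clA h ha hw hvw hp

/-- Closability of the exposed short heads. -/
theorem clB {σ : St V} {m0 : V × Bool → Option Bool} {ω : V × Bool → Bool} {z : V} {K Tm : ℕ} {E : Set V}
    (h : Ctx G σ m0 ω z K Tm E) {v w v' : V} (hb : obB G σ ω z v) (hw : OnB G σ ω z w) (hvw : G.t v < G.t w)
    (hv' : G.inn v') (h1 : G.lo v' = G.lo v) (h2 : G.t v ≤ G.t v') (h3 : G.t v' + 1 < G.tau1 v)
    (hp : 0 < prb G σ m0 ω z v w) :
    prb G σ m0 ω z v w ≤ pr (memc G σ m0 ω z v true)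
      (fun ω' => ∃ u, OnB G σ ω z u ∧ G.t u ≤ G.t w ∧ Orb (lam G σ ω') (G.up v') u) :=
  T34b.clB h hb hw hvw hv' h1 h2 h3 hp

/-- The restricted memory is small: alive rejected hosts are `v`-harmful. -/
theorem mr_card {σ : St V} {m0 : V × Bool → Option Bool} {ω : V × Bool → Bool} {z : V} {K Tm : ℕ} {E : Set V}
    (h : Ctx G σ m0 ω z K Tm E) {v : V} (hv : OnB G σ ω z v) {m : ℕ} (hm : Set.ncard {c | m0 c ≠ none} ≤ m) :
    Set.ncard {c | mr G σ m0 ω z v c ≠ none} ≤ m + 2 * (K + 1) := T34b.mr_card h hv hm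

end Pool.Agent.W_a4f561_h26
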