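import Pool.Agent.W_a4f561_h26.Bas
import Pool.Agent.W_a4f561_E.Rec33
import Pool.Agent.W_a4f561_E.Drw25

/-!
MP_a4f561_co (EpsPages): records (pockets) and the drawing of a path. STUBS (helper25, helper33).
Region of `R` at time `τ ∈ [R.a, R.c]`: the alive `u` with `host R.q τ < u < R.y`.
-/

set_option autoImplicit false

namespace Pool.Agent.W_a4f561_h26

variable {V : Type} {G : Bars V}

/-- P4, never enter: a route which avoids `S` and is in the region at `τ` is in the region at all earlier times of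
the interval at which it is defined. -/
theorem rec_back {σ : St V} (hI : Inv G σ) {R : Rec V} (hR : IsRec G σ R) {ρ : V → V} (hρ : Ch G ρ) {u : V}
    {τ' τ : ℕ} (hu : G.b u ≤ τ') (ha : R.a ≤ τ') (h : τ' ≤ τ) (hc : τ ≤ R.c)
    (hav : ∀ s, τ' ≤ s → s ≤ τ → host G ρ u s ∉ σ.S)
    (h1 : G.r (host G σ.pi R.q τ) < G.r (host G ρ u τ)) (h2 : G.r (host G ρ u τ) < G.r R.y) :
    G.r (host G σ.pi R.q τ') < G.r (host G ρ u τ') ∧ G.r (host G ρ u τ') < G.r R.y :=
  Pool.Agent.W_a4f561_R33.rec_back hI hR hρ hu ha h hc hav h1 h2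

/-- P4: at its first and last time the region is empty, and a route which starts before `R.a` is never inside. -/
theorem rec_start {σ : St V} (hI : Inv G σ) {R : Rec V} (hR : IsRec G σ R) {ρ : V → V} (hρ : Ch G ρ) {u : V}
    {τ : ℕ} (hu : G.b u ≤ τ) (ha : R.a ≤ τ) (hc : τ ≤ R.c)
    (hav : ∀ s, G.b u ≤ s → s ≤ τ → host G ρ u s ∉ σ.S)
    (h1 : G.r (host G σ.pi R.q τ) < G.r (host G ρ u τ)) (h2 : G.r (host G ρ u τ) < G.r R.y) :
    R.a < G.b u ∧ τ < R.c :=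
  Pool.Agent.W_a4f561_R33.rec_start hI hR hρ hu ha hc hav h1 h2

/-- P4: a route of a choice function which respects `σ` on `S ∪ Dec` and is inside at `τ` enters `S` before or at
`R.c`, and stays inside till then; the first vertex in `S` is the host of `R.q` at some time or is in the region. -/
theorem rec_stay {σ : St V} (hI : Inv G σ) {R : Rec V} (hR : IsRec G σ R) {ρ : V → V} (hρ : Ch G ρ)
    (hd : ∀ v ∈ σ.Dec, v ∉ σ.S → ρ v = σ.pi v) {u : V} {τ : ℕ} (hu : G.b u ≤ τ) (ha : R.a ≤ τ) (hc : τ ≤ R.c)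
    (h1 : G.r (host G σ.pi R.q τ) < G.r (host G ρ u τ)) (h2 : G.r (host G ρ u τ) < G.r R.y) :
    ∃ s, τ ≤ s ∧ s ≤ R.c ∧ host G ρ u s ∈ σ.S ∧ (∀ s', τ ≤ s' → s' < s → host G ρ u s' ∉ σ.S) ∧
      ∀ s', τ ≤ s' → s' ≤ s → G.r (host G σ.pi R.q s') ≤ G.r (host G ρ u s') ∧ G.r (host G ρ u s') < G.r R.y :=
  Pool.Agent.W_a4f561_R33.rec_stay hI hR hρ hd hu ha hc h1 h2

/-- P2 (general form): everything between a route which is weakly above `R.q` and the barrier has merged with that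
route at its next touch of the barrier. -/
theorem rec_close {σ : St V} (hI : Inv G σ) {R : Rec V} (hR : IsRec G σ R) {π : V → V} (hπ : Fin' G σ π)
    {u h : V} {τ τ2 : ℕ} (ha : R.a ≤ τ) (h12 : τ ≤ τ2) (hc : τ2 ≤ R.c) (hu : G.b u ≤ τ)
    (hq : G.r (host G π R.q τ) ≤ G.r (host G π u τ)) (ht : G.ub (host G π u τ2) τ2 = R.y)
    (hh : G.al h τ) (h1 : G.r (host G π u τ) < G.r h) (h2 : G.r h < G.r R.y) :
    host G π h τ2 = host G π u τ2 :=
  Pool.Agent.W_a4f561_R33.rec_close hI hR hπ ha h12 hc hu hq ht hh h1 h2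

/-- P6: the upper neighbour of a host `x ∈ R.S` (entered by a D-step from `v ∈ R.S`) is not in the region of `R`. -/
theorem rec_freshD {σ : St V} (hI : Inv G σ) {R : Rec V} (hR : IsRec G σ R) {v : V} (hv : v ∈ R.S) (hvi : G.inn v)
    (hx : σ.pi v = G.lo v) {τ : ℕ} (h1 : G.t v < τ) (h2 : τ ≤ G.t (G.lo v)) (ha : R.a ≤ τ) (hc : τ ≤ R.c) :
    ¬ (G.r (host G σ.pi R.q τ) < G.r (G.ub (G.lo v) τ) ∧ G.r (G.ub (G.lo v) τ) < G.r R.y) :=
  Pool.Agent.W_a4f561_R33.rec_freshD hI hR hv hvi hx h1 h2 ha hc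

/-- P6 for a record below a path (`IsRec G.mir`). -/
theorem rec_freshU {σ : St V} (hI : Inv G σ) {R : Rec V} (hR : IsRec G.mir σ R) {v : V} (hv : v ∈ R.S)
    (hvi : G.inn v) (hx : σ.pi v = G.lo v) {τ : ℕ} (h1 : G.t v < τ) (h2 : τ ≤ G.t (G.lo v)) (ha : R.a ≤ τ)
    (hc : τ ≤ R.c) :
    ¬ (G.r R.y < G.r (G.ub (G.lo v) τ) ∧ G.r (G.ub (G.lo v) τ) < G.r (host G σ.pi R.q τ)) :=
  Pool.Agent.W_a4f561_R33.rec_freshU hI hR hv hvi hx h1 h2 ha hc

variable [Fintype V] [DecidableEq V]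

/-- Forced barriers: the whole route is in the region of an old record with that barrier. -/
theorem fb_in {σ : St V} {m0 : V × Bool → Option Bool} {ω : V × Bool → Bool} {z : V} {K Tm : ℕ} {E : Set V}
    (h : Ctx G σ m0 ω z K Tm E) {v : V} (hv : Dst G σ ω z v) (hf : fb G σ v) :
    ∃ R ∈ σ.RD, R.y = G.flh v ∧ ∀ τ, G.b z ≤ τ → τ ≤ G.N → host G (lam G σ ω) z τ ∉ σ.S →
      R.a ≤ τ ∧ τ ≤ R.c ∧ G.r (host G σ.pi R.q τ) < G.r (host G (lam G σ ω) z τ) ∧
      G.r (host G (lam G σ ω) z τ) < G.r R.y :=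
  Pool.Agent.W_a4f561_R33.fb_in h hv hf

/-- P5: one forced barrier. -/
theorem fb_one {σ : St V} {m0 : V × Bool → Option Bool} {ω : V × Bool → Bool} {z : V} {K Tm : ℕ} {E : Set V}
    (h : Ctx G σ m0 ω z K Tm E) {v v' : V} (hv : Dst G σ ω z v) (hf : fb G σ v) (hv' : Dst G σ ω z v')
    (hf' : fb G σ v') : G.flh v = G.flh v' :=
  Pool.Agent.W_a4f561_R33.fb_one h hv hf hv' hf'

/-- DRAWING A PATH: `S1 = S ∪ B`; for every `y ∉ Fr` with a touch one record from the first to the last touch,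
mirror; `Dec1` = `Dec` and the vertices `u ∉ S1` declared by the new records. P1, P3 are inside. -/
theorem draw {σ : St V} {m0 : V × Bool → Option Bool} {ω : V × Bool → Bool} {z : V} {K Tm : ℕ} {E : Set V}
    (h : Ctx G σ m0 ω z K Tm E) : ∃ σ1, Dr G σ ω z σ1 :=
  drw h

end Pool.Agent.W_a4f561_h26
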