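import Pool.Agent.W_a4f561_E.Chn28

/-!
MP_a4f561_co (EpsPages): chain length: a token visits at most `4 K + 5` trees. (proof: E/Chn28)
-/

set_option autoImplicit false

namespace Pool.Agent.W_a4f561_h26

variable {V : Type} [Fintype V] [DecidableEq V] {G : Bars V}
  {σ σ1 σk : St V} {m0 : V × Bool → Option Bool} {ω : V × Bool → Bool} {z : V} {K Tm T C : ℕ} {E : Set V}

/-- CHAIN LENGTH and cost of all trees. -/
theorem chain (h : Ctx G σ m0 ω z K Tm E) (hd : Dr G σ ω z σ1) {idx : V → ℕ} {q : ℕ}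
    {ev : ℕ → Bool × Bool × V} {dt : ℕ → V} (hT : Tr G σ m0 ω z (dl K) σ1 σk C T idx q ev dt) :
    ∀ π, Fin' G σk π → CB G π (σk.S \ σ1.S) ((4 * K + 5) * C) ∧ CB G.mir π (σk.S \ σ1.S) ((4 * K + 5) * C) :=
  Pool.Agent.W_a4f561_E.Chn28.chain h hd hT

end Pool.Agent.W_a4f561_h26
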