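import Pool.Agent.W_a4f561_E.B31b

/-!
MP_a4f561_co (EpsPages): basic facts on bars, hosts, the order principle and the mirror.
-/

set_option autoImplicit false

namespace Pool.Agent.W_a4f561_h26

open Pool.Agent

variable {V : Type} {G : Bars V}

theorem mir_mir (G : Bars V) : G.mir.mir = G := W_a4f561_B31.mir_mir G

/-- `ub` is the upper neighbour. -/
theorem ub_spec (G : Bars V) {x : V} {τ : ℕ} (hτ : τ ≤ G.N) (hx : x ≠ G.top) :
    G.al (G.ub x τ) τ ∧ G.r x < G.r (G.ub x τ) ∧ ∀ u, G.al u τ → G.r x < G.r u → G.r (G.ub x τ) ≤ G.r u :=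
  W_a4f561_B31.ub_spec G (G.r_top x hx) (by omega)

theorem ub_eq (G : Bars V) {x y : V} {τ : ℕ} (hy : G.al y τ) (hxy : G.r x < G.r y)
    (h : ∀ u, G.al u τ → G.r x < G.r u → G.r y ≤ G.r u) : G.ub x τ = y := by
  have h0 : ∃ u, G.al u τ ∧ G.r x < G.r u ∧ ∀ u', G.al u' τ → G.r x < G.r u' → G.r u ≤ G.r u' := ⟨y, hy, hxy, h⟩
  unfold Bars.ub
  rw [dif_pos h0]
  have h4 := h0.choose_spec
  exact G.r_inj (le_antisymm (h4.2.2 y hy hxy) (h _ h4.1 h4.2.1))

theorem lb_spec (G : Bars V) {x : V} {τ : ℕ} (hτ : τ ≤ G.N) (hx : x ≠ G.bot) :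
    G.al (G.lb x τ) τ ∧ G.r (G.lb x τ) < G.r x ∧ ∀ u, G.al u τ → G.r u < G.r x → G.r u ≤ G.r (G.lb x τ) :=
  W_a4f561_B31.lb_spec G (G.r_bot x hx) (by omega)

theorem lb_eq (G : Bars V) {x y : V} {τ : ℕ} (hy : G.al y τ) (hxy : G.r y < G.r x)
    (h : ∀ u, G.al u τ → G.r u < G.r x → G.r u ≤ G.r y) : G.lb x τ = y :=
  ub_eq G.mir hy ((W_a4f561_B31.mir_r_lt G _ _).2 hxy) fun u h1 h2 =>
    (W_a4f561_B31.mir_r_le G _ _).2 (h u h1 ((W_a4f561_B31.mir_r_lt G _ _).1 h2))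

/-- The neighbours at the death of `v` live longer. -/
theorem t_up (G : Bars V) {v : V} (hv : G.inn v) : G.t v < G.t (G.up v) := W_a4f561_B31.t_lt_up G hv

theorem t_lo (G : Bars V) {v : V} (hv : G.inn v) : G.t v < G.t (G.lo v) := W_a4f561_B31.t_lt_lo G hv

theorem al_up (G : Bars V) {v : V} (hv : G.inn v) : G.al (G.up v) (G.t v) ∧ G.al (G.up v) (G.t v + 1) :=
  ⟨(W_a4f561_B31.up_spec G hv).1, W_a4f561_B31.al_up_succ G hv⟩

theorem al_lo (G : Bars V) {v : V} (hv : G.inn v) : G.al (G.lo v) (G.t v) ∧ G.al (G.lo v) (G.t v + 1) :=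
  ⟨(W_a4f561_B31.lo_spec G hv).1, W_a4f561_B31.al_lo_succ G hv⟩

theorem r_up (G : Bars V) {v : V} (hv : G.inn v) : G.r v < G.r (G.up v) := W_a4f561_B31.lt_up G hv

theorem r_lo (G : Bars V) {v : V} (hv : G.inn v) : G.r (G.lo v) < G.r v := W_a4f561_B31.lo_lt G hv

/-- After the death of `v` its neighbours are consecutive (no births at `t v + 1`). -/
theorem ub_lo (G : Bars V) {v : V} (hv : G.inn v) : G.ub (G.lo v) (G.t v + 1) = G.up v :=
  W_a4f561_B31.ub_lo_succ G hv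

theorem lb_up (G : Bars V) {v : V} (hv : G.inn v) : G.lb (G.up v) (G.t v + 1) = G.lo v :=
  W_a4f561_B31.lb_up_succ G hv

/-- If the upper neighbour of an alive `x` changes from `τ` to `τ + 1`, then it died at `τ` (and the new one is
its upper neighbour) or the new one is born at `τ + 1` below it. -/
theorem ub_step (G : Bars V) {x : V} {τ : ℕ} (hτ : τ + 1 ≤ G.N) (hx : G.al x τ) (hx' : G.al x (τ + 1))
    (h : G.ub x (τ + 1) ≠ G.ub x τ) :
    (G.t (G.ub x τ) = τ ∧ G.inn (G.ub x τ) ∧ G.lo (G.ub x τ) = x ∧ G.up (G.ub x τ) = G.ub x (τ + 1)) ∨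
    (G.b (G.ub x (τ + 1)) = τ + 1 ∧ G.r (G.ub x (τ + 1)) < G.r (G.ub x τ)) := by
  have hxt : x ≠ G.top := by
    rintro rfl
    apply h
    have h1 : ∀ τ, G.ub G.top τ = G.top := by
      intro τ
      unfold Bars.ub
      rw [dif_neg]
      rintro ⟨u, _, h2, _⟩
      exact absurd h2 (not_lt.2 (W_a4f561_B31.r_le_top G u))
    rw [h1, h1]
  rcases W_a4f561_B31.ub_succ G hx hx' (G.r_top x hxt) (by omega) with h1 | ⟨h1, h2, h3, h4⟩ | h1
  · exact absurd h1 h
  · exact Or.inl ⟨h1, h2, h3, h4.symm⟩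
  · exact Or.inr h1

theorem ch_mir {π : V → V} : Ch G.mir π ↔ Ch G π := by
  constructor
  · intro h
    have h1 := W_a4f561_B31.ch_mir h
    rw [mir_mir] at h1
    exact h1
  · intro h
    exact W_a4f561_B31.ch_mir h

theorem zz_cases (G : Bars V) {v : V} (hv : G.inn v) :
    (G.zz v = G.up v ∧ G.oo v = G.lo v ∧ G.t (G.lo v) < G.t (G.up v)) ∨
    (G.zz v = G.lo v ∧ G.oo v = G.up v ∧ G.t (G.up v) < G.t (G.lo v)) := by
  unfold Bars.zz Bars.oo
  by_cases h : G.t (G.lo v) < G.t (G.up v)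
  · left
    rw [if_pos h, if_pos h]
    exact ⟨rfl, rfl, h⟩
  · right
    rw [if_neg h, if_neg h]
    refine ⟨rfl, rfl, lt_of_le_of_ne (not_lt.1 h) fun e => ?_⟩
    exact W_a4f561_B31.lo_ne_up G hv (G.t_inj e).symm

theorem inn_mir (G : Bars V) {v : V} : G.mir.inn v ↔ G.inn v := W_a4f561_B31.mir_inn G v

theorem mir_up' (G : Bars V) (v : V) : G.mir.up v = G.lo v := rfl

theorem mir_lo' (G : Bars V) (v : V) : G.mir.lo v = G.up v := W_a4f561_B31.mir_lo G v

theorem zz_mir (G : Bars V) {v : V} (hv : G.inn v) : G.mir.zz v = G.zz v ∧ G.mir.oo v = G.oo v := by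
  have h := zz_cases G.mir ((inn_mir G).2 hv)
  rw [mir_up', mir_lo'] at h
  rcases zz_cases G hv with ⟨h1, h2, h3⟩ | ⟨h1, h2, h3⟩
  · rcases h with ⟨k1, k2, k3⟩ | ⟨k1, k2, k3⟩
    · exact absurd (show G.t (G.up v) < G.t (G.lo v) from k3) (by omega)
    · rw [h1, h2, k1, k2]
      exact ⟨rfl, rfl⟩
  · rcases h with ⟨k1, k2, k3⟩ | ⟨k1, k2, k3⟩
    · rw [h1, h2, k1, k2]
      exact ⟨rfl, rfl⟩
    · exact absurd (show G.t (G.lo v) < G.t (G.up v) from k3) (by omega)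

theorem zz_ne (G : Bars V) {v : V} (hv : G.inn v) : G.r (G.zz v) ≠ G.r v := by
  rcases zz_cases G hv with ⟨h1, _⟩ | ⟨h1, _⟩ <;> rw [h1]
  · exact (r_up G hv).ne'
  · exact (r_lo G hv).ne

theorem coin_mir (G : Bars V) {v : V} (hv : G.inn v) : G.mir.coin v = G.coin v := by
  unfold Bars.coin
  rw [(zz_mir G hv).1]
  congr 1
  have h1 := W_a4f561_B31.mir_r_lt G (G.zz v) v
  have h2 := zz_ne G hv
  have h3 : (G.mir.r (G.zz v) < G.mir.r v) ↔ ¬ (G.r (G.zz v) < G.r v) := by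
    rw [h1]
    omega
  rw [W_a4f561_B31.mir_fl]
  by_cases h4 : G.r (G.zz v) < G.r v
  · have h5 : ¬ (G.mir.r (G.zz v) < G.mir.r v) := fun h => (h3.1 h) h4
    rw [decide_eq_true h4, decide_eq_false h5]
    cases G.fl <;> rfl
  · have h5 : G.mir.r (G.zz v) < G.mir.r v := h3.2 h4
    rw [decide_eq_false h4, decide_eq_true h5]
    cases G.fl <;> rfl

/-- The coin of `v` if the longer-lived neighbour is above. -/
theorem coin_up (G : Bars V) {v : V} (hv : G.inn v) (h : G.zz v = G.up v) : G.coin v = G.blw (G.up v) := by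
  unfold Bars.coin Bars.blw
  rw [h, decide_eq_false (not_lt.2 (r_up G hv).le)]
  cases G.fl <;> rfl

theorem lam_mir {σ : St V} (hb : G.bot ∈ σ.S) (ht : G.top ∈ σ.S) (ω : V × Bool → Bool) :
    lam G.mir σ.mir ω = lam G σ ω := by
  funext v
  by_cases h : v ∈ σ.S ∪ σ.Dec
  · have h' : v ∈ σ.mir.S ∪ σ.mir.Dec := h
    unfold lam
    rw [if_pos h, if_pos h']
    rfl
  · have hv : G.inn v := by
      constructor
      · rintro rfl
        exact h (Or.inl hb)
      · rintro rfl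
        exact h (Or.inl ht)
    have h' : ¬ (v ∈ σ.mir.S ∪ σ.mir.Dec) := h
    unfold lam
    rw [if_neg h, if_neg h', (zz_mir G hv).1, (zz_mir G hv).2, coin_mir G hv]
    rfl

theorem ch_lam {σ : St V} (h : Inv G σ) (ω : V × Bool → Bool) : Ch G (lam G σ ω) := by
  refine ⟨?_, ?_, fun v hv => ?_⟩
  · unfold lam
    rw [if_pos (show G.bot ∈ σ.S ∪ σ.Dec from Or.inl h.bot_mem)]
    exact h.ch.1
  · unfold lam
    rw [if_pos (show G.top ∈ σ.S ∪ σ.Dec from Or.inl h.top_mem)]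
    exact h.ch.2.1
  · unfold lam
    split_ifs with h1 h2 h3
    · exact h.ch.2.2 v hv
    · rcases zz_cases G hv with ⟨k, _⟩ | ⟨k, _⟩ <;> rw [k]
      · exact Or.inr rfl
      · exact Or.inl rfl
    · rcases zz_cases G hv with ⟨k, _⟩ | ⟨k, _⟩ <;> rw [k]
      · exact Or.inr rfl
      · exact Or.inl rfl
    · rcases zz_cases G hv with ⟨_, k, _⟩ | ⟨_, k, _⟩ <;> rw [k]
      · exact Or.inl rfl
      · exact Or.inr rfl

theorem isRec_mir_st {σ : St V} {R : Rec V} (h : IsRec G σ R) : IsRec G σ.mir R where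
  q_mem := h.q_mem
  q_new := h.q_new
  S_sub := h.S_sub
  S_cl := h.S_cl
  b_le := h.b_le
  ac := h.ac
  cN := h.cN
  y_b := h.y_b
  y_t := h.y_t
  hostS := h.hostS
  ta := h.ta
  tc := h.tc
  ya := h.ya
  yc := h.yc
  reg := h.reg
  dec := h.dec
  att := h.att

theorem inv_mir {σ : St V} (h : Inv G σ) : Inv G.mir σ.mir where
  bot_mem := h.top_mem
  top_mem := h.bot_mem
  ch := ch_mir.2 h.ch
  cl := h.cl
  lat_sub := h.lat_sub
  lat_bot := h.lat_top
  lat_top := h.lat_bot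
  recD := fun R hR => isRec_mir_st (h.recU R hR)
  recU := fun R hR => by
    rw [mir_mir]
    exact isRec_mir_st (h.recD R hR)
  latD := h.latU
  latU := h.latD
  decl := fun u h1 h2 => by
    rw [mir_mir]
    exact (h.decl u h1 h2).symm

/-! Routes and hosts of a choice function. -/

theorem orb_refl (π : V → V) (u : V) : Orb π u u := ⟨0, rfl⟩

theorem orb_step {π : V → V} {u v : V} (h : Orb π u v) : Orb π u (π v) := W_a4f561_B31.orb_step h

theorem orb_trans {π : V → V} {u v w : V} (h : Orb π u v) (h' : Orb π v w) : Orb π u w :=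
  W_a4f561_B31.orb_trans h h'

/-- Two vertices of one route are comparable; the time grows. -/
theorem orb_comp {π : V → V} (hπ : Ch G π) {u v w : V} (h : Orb π u v) (h' : Orb π u w) (ht : G.t v ≤ G.t w) :
    Orb π v w := W_a4f561_B31.orb_of_t_le hπ h h' ht

theorem orb_t {π : V → V} (hπ : Ch G π) {u v : V} (h : Orb π u v) : G.t u ≤ G.t v := W_a4f561_B31.orb_t_le hπ h

theorem host_orb (G : Bars V) (π : V → V) (u : V) (τ : ℕ) : Orb π u (host G π u τ) := by
  have key : ∀ n, Orb π u ((fun w => if G.t w < τ then π w else w)^[n] u) := by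
    intro n
    induction n with
    | zero => exact ⟨0, rfl⟩
    | succ n ih =>
      rw [Function.iterate_succ_apply']
      by_cases h : G.t ((fun w => if G.t w < τ then π w else w)^[n] u) < τ
      · simp only [h, if_true]
        exact orb_step ih
      · simp only [h, if_false]
        exact ih
  exact key τ

theorem host_al {π : V → V} (hπ : Ch G π) {u : V} {τ : ℕ} (h1 : G.b u ≤ τ) (h2 : τ ≤ G.N) :
    G.al (host G π u τ) τ := W_a4f561_B31.host_al hπ (by omega) h1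

theorem host_self {π : V → V} (_ : Ch G π) {u : V} {τ : ℕ} (h : τ ≤ G.t u) : host G π u τ = u :=
  W_a4f561_B31.host_of_le h

/-- `w` on the route of `u` is the host at its own death. -/
theorem host_t {π : V → V} (hπ : Ch G π) {u w : V} (h : Orb π u w) (hw : G.inn w) :
    host G π u (G.t w) = w :=
  W_a4f561_B31.host_of_orb hπ h (by have := W_a4f561_B31.t_lt_of_inn G hw; omega)

/-- The host changes only by a death. -/
theorem host_step {π : V → V} (hπ : Ch G π) {u : V} {τ : ℕ} (_ : G.b u ≤ τ) (h2 : τ + 1 ≤ G.N) :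
    host G π u (τ + 1) = host G π u τ ∧ τ < G.t (host G π u τ) ∨
    host G π u (τ + 1) = π (host G π u τ) ∧ G.t (host G π u τ) = τ := by
  rcases W_a4f561_B31.host_succ hπ (by omega : τ ≤ G.N) u with ⟨h3, h4⟩ | ⟨h3, h4⟩
  · exact Or.inl ⟨h4, h3⟩
  · exact Or.inr ⟨h4, h3⟩

/-- If the host of `u` at time `τ` is not `u`, it was entered from a vertex which died before `τ`. -/
theorem host_pred {π : V → V} (hπ : Ch G π) {u : V} {τ : ℕ} (h2 : τ ≤ G.N) (h : host G π u τ ≠ u) :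
    ∃ v, Orb π u v ∧ π v = host G π u τ ∧ G.t v < τ ∧ G.inn v := by
  have hτ : τ ≤ G.N + 1 := by omega
  refine W_a4f561_B31.ch_ind hπ hτ (P := fun u => host G π u τ ≠ u →
    ∃ v, Orb π u v ∧ π v = host G π u τ ∧ G.t v < τ ∧ G.inn v) (fun u hu hne => ?_)
    (fun u hi h3 ih _ => ?_) u h
  · exact absurd (W_a4f561_B31.host_of_le hu) hne
  · rw [W_a4f561_B31.host_of_lt hπ hτ h3]
    by_cases h4 : host G π (π u) τ = π u
    · exact ⟨u, orb_refl _ _, h4.symm, h3, hi⟩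
    · obtain ⟨v, k1, k2, k3, k4⟩ := ih h4
      exact ⟨v, W_a4f561_B31.orb_head k1, k2, k3, k4⟩

theorem host_eq_of_orb {π : V → V} (hπ : Ch G π) {u v : V} {τ : ℕ} (h : Orb π u v) (h1 : G.t v ≤ τ)
    (h2 : τ ≤ G.N) : host G π u τ = host G π v τ := by
  have h3 := W_a4f561_B31.host_host hπ h1 (by omega : τ ≤ G.N + 1) u
  rw [W_a4f561_B31.host_of_orb hπ h (by omega)] at h3
  exact h3.symm

/-- The host at a time between the deaths of `v` and `π v`. -/
theorem host_btw {π : V → V} (hπ : Ch G π) {u v : V} {τ : ℕ} (h : Orb π u v) (h1 : G.t v < τ)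
    (h2 : τ ≤ G.t (π v)) (h3 : τ ≤ G.N) : host G π u τ = π v := by
  rw [host_eq_of_orb hπ h h1.le h3, W_a4f561_B31.host_of_lt hπ (by omega) h1]
  exact W_a4f561_B31.host_of_le h2

theorem host_add {π : V → V} (hπ : Ch G π) {u : V} {τ τ' : ℕ} (_ : G.b u ≤ τ) (h : τ ≤ τ') (h2 : τ' ≤ G.N) :
    host G π (host G π u τ) τ' = host G π u τ' := W_a4f561_B31.host_host hπ h (by omega) u

/-- Two choice functions which agree on the route of `u` have the same hosts. -/
theorem host_congr {π ρ : V → V} {u : V} (h : ∀ v, Orb π u v → ρ v = π v) (τ : ℕ) :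
    host G ρ u τ = host G π u τ := by
  have key : ∀ n, (fun w => if G.t w < τ then ρ w else w)^[n] u = (fun w => if G.t w < τ then π w else w)^[n] u ∧
      Orb π u ((fun w => if G.t w < τ then π w else w)^[n] u) := by
    intro n
    induction n with
    | zero => exact ⟨rfl, orb_refl _ _⟩
    | succ n ih =>
      rw [Function.iterate_succ_apply', Function.iterate_succ_apply', ih.1]
      by_cases h1 : G.t ((fun w => if G.t w < τ then π w else w)^[n] u) < τ
      · simp only [h1, if_true]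
        exact ⟨h _ ih.2, orb_step ih.2⟩
      · simp only [h1, if_false]
        exact ⟨trivial, ih.2⟩
  exact (key τ).1

/-- ORDER PRINCIPLE for two choice functions. -/
theorem order {π ρ : V → V} (hπ : Ch G π) (hρ : Ch G ρ) {u v : V} {τ1 τ2 : ℕ} (hu : G.b u ≤ τ1)
    (hv : G.b v ≤ τ1) (h12 : τ1 ≤ τ2) (h2 : τ2 ≤ G.N)
    (h : G.r (host G π u τ1) < G.r (host G ρ v τ1)) (h' : G.r (host G ρ v τ2) ≤ G.r (host G π u τ2)) :
    ∃ τ, τ1 < τ ∧ τ ≤ τ2 ∧ host G π u τ = host G ρ v τ :=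
  (W_a4f561_B31.Trk.host hπ hu (by omega : τ2 ≤ G.N + 1)).meet (W_a4f561_B31.Trk.host hρ hv (by omega))
    (by omega) le_rfl h12 le_rfl h h'

/-- One choice function: equal hosts stay equal, the weak order is kept. -/
theorem order_one {π : V → V} (hπ : Ch G π) {u v : V} {τ1 τ2 : ℕ} (hu : G.b u ≤ τ1)
    (hv : G.b v ≤ τ1) (h12 : τ1 ≤ τ2) (h2 : τ2 ≤ G.N)
    (h : G.r (host G π u τ1) ≤ G.r (host G π v τ1)) : G.r (host G π u τ2) ≤ G.r (host G π v τ2) := by
  by_contra hc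
  push Not at hc
  obtain ⟨τ, k1, k2, k3⟩ := (W_a4f561_B31.Trk.host hπ hu (by omega : τ2 ≤ G.N + 1)).meet'
    (W_a4f561_B31.Trk.host hπ hv (by omega)) (by omega) le_rfl h12 le_rfl h hc.le
  have e1 := host_add hπ (u := u) (hu.trans k1) k2 h2
  have e2 := host_add hπ (u := v) (hv.trans k1) k2 h2
  rw [k3, e2] at e1
  rw [e1] at hc
  exact lt_irrefl _ hc

/-- A constant bar: a route does not pass an alive vertex without stepping on it. -/
theorem order_bar {π : V → V} (hπ : Ch G π) {u y : V} {τ1 τ2 : ℕ} (hu : G.b u ≤ τ1) (hy : G.b y ≤ τ1)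
    (h12 : τ1 ≤ τ2) (h2 : τ2 ≤ G.N) (hy2 : τ2 ≤ G.t y) :
    (G.r (host G π u τ1) < G.r y → G.r (host G π u τ2) ≤ G.r y) ∧
    (G.r y < G.r (host G π u τ1) → G.r y ≤ G.r (host G π u τ2)) ∧
    (host G π u τ1 = y → host G π u τ2 = y) := by
  have hq := W_a4f561_B31.Trk.host hπ hu (by omega : τ2 ≤ G.N + 1)
  refine ⟨fun h => ?_, fun h => ?_, fun h => ?_⟩
  · exact hq.le_const (by omega) le_rfl h12 le_rfl hy hy2 h.le
  · exact hq.const_le (by omega) le_rfl h12 le_rfl hy hy2 h.le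
  · rw [← h]
    exact hq.stay le_rfl h12 le_rfl (by rw [h]; exact hy2)

/-- The first long head exists for an inner `x = lo v`; it is alive till after the death of `x`; heads seen before
are short, heads seen later are below it. -/
theorem tau1_spec (G : Bars V) {v : V} (hv : G.inn v) (hx : G.inn (G.lo v)) :
    G.t v < G.tau1 v ∧ G.tau1 v ≤ G.t (G.lo v) ∧ G.t (G.lo v) < G.t (G.flh v) ∧ G.al (G.flh v) (G.tau1 v) ∧
    (∀ τ, G.t v < τ → τ < G.tau1 v → G.t (G.ub (G.lo v) τ) < G.t (G.lo v)) ∧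
    (∀ τ, G.tau1 v ≤ τ → τ ≤ G.t (G.lo v) → G.r (G.ub (G.lo v) τ) ≤ G.r (G.flh v)) := by
  have htx : G.t (G.lo v) < G.N := W_a4f561_B31.t_lt_of_inn G hx
  have hmem : G.t (G.lo v) ∈ {τ | G.t v < τ ∧ G.t (G.lo v) < G.t (G.ub (G.lo v) τ)} := ⟨t_lo G hv, t_up G hx⟩
  have h1 : G.t v < G.tau1 v ∧ G.t (G.lo v) < G.t (G.ub (G.lo v) (G.tau1 v)) := Nat.sInf_mem ⟨_, hmem⟩
  have h2 : G.tau1 v ≤ G.t (G.lo v) := Nat.sInf_le hmem
  have h3 := ub_spec G (x := G.lo v) (τ := G.tau1 v) (by omega) hx.2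
  refine ⟨h1.1, h2, h1.2, h3.1, fun τ k1 k2 => ?_, fun τ k1 k2 => ?_⟩
  · have k3 : τ ∉ {τ | G.t v < τ ∧ G.t (G.lo v) < G.t (G.ub (G.lo v) τ)} := Nat.notMem_of_lt_sInf k2
    have k4 : ¬ (G.t (G.lo v) < G.t (G.ub (G.lo v) τ)) := fun k => k3 ⟨k1, k⟩
    refine lt_of_le_of_ne (not_lt.1 k4) fun e => ?_
    have k5 := (ub_spec G (x := G.lo v) (τ := τ) (by omega) hx.2).2.1
    rw [G.t_inj e] at k5
    exact lt_irrefl _ k5
  · have k3 : G.al (G.flh v) τ := ⟨h3.1.1.trans k1, k2.trans h1.2.le⟩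
    exact (ub_spec G (x := G.lo v) (τ := τ) (by omega) hx.2).2.2 _ k3 h3.2.1

/-- Either the first long head is `up v`, or it is exposed by a death, or it is born. -/
theorem tau1_cases (G : Bars V) {v : V} (hv : G.inn v) (hx : G.inn (G.lo v)) :
    (∃ u, G.inn u ∧ G.lo u = G.lo v ∧ G.up u = G.flh v ∧ G.t u + 1 = G.tau1 v ∧ G.t v ≤ G.t u) ∨
    (G.b (G.flh v) = G.tau1 v ∧ G.t v + 1 < G.tau1 v ∧
      G.r (G.flh v) < G.r (G.ub (G.lo v) (G.tau1 v - 1))) := by
  obtain ⟨h1, h2, h3, h4, h5, h6⟩ := tau1_spec G hv hx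
  have htx : G.t (G.lo v) < G.N := W_a4f561_B31.t_lt_of_inn G hx
  rcases Nat.lt_or_ge (G.t v + 1) (G.tau1 v) with h7 | h7
  · have hb : G.b (G.lo v) ≤ G.t v := (al_lo G hv).1.1
    have e : G.tau1 v - 1 + 1 = G.tau1 v := by omega
    have h8 := h5 (G.tau1 v - 1) (by omega) (by omega)
    have h9 : G.ub (G.lo v) (G.tau1 v) ≠ G.ub (G.lo v) (G.tau1 v - 1) := by
      intro k
      rw [← k] at h8
      exact absurd h3 (by rw [Bars.flh]; omega)
    have h10 := ub_step G (x := G.lo v) (τ := G.tau1 v - 1) (by omega) ⟨by omega, by omega⟩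
      ⟨by omega, by omega⟩ (by rw [e]; exact h9)
    rw [e] at h10
    rcases h10 with ⟨k1, k2, k3, k4⟩ | ⟨k1, k2⟩
    · left
      exact ⟨_, k2, k3, k4, by omega, by omega⟩
    · right
      exact ⟨k1, h7, k2⟩
  · left
    have e : G.tau1 v = G.t v + 1 := by omega
    refine ⟨v, hv, rfl, ?_, e.symm, le_rfl⟩
    rw [Bars.flh, e, ub_lo G hv]

end Pool.Agent.W_a4f561_h26
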