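import Pool.Agent.W_a4f561_E.Own28

/-!
MP_a4f561_co (EpsPages): open events and the own cost of a path (proofs: E/Cnt28, E/Own28).
-/

set_option autoImplicit false

namespace Pool.Agent.W_a4f561_h26

variable {V : Type}

theorem cb_union {G : Bars V} {π : V → V} {A A' : Set V} {C C' : ℕ} (h : CB G π A C) (h' : CB G π A' C') :
    CB G π (A ∪ A') (C + C') := Pool.Agent.W_a4f561_E.Cnt28.cb_union h h'

theorem cb_mono {G : Bars V} {π : V → V} {A A' : Set V} {C C' : ℕ} (h : CB G π A' C') (hA : A ⊆ A')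
    (hC : C' ≤ C) : CB G π A C := Pool.Agent.W_a4f561_E.Cnt28.cb_mono h hA hC

variable [Fintype V] [DecidableEq V] {G : Bars V}
  {σ σ1 σk : St V} {m0 : V × Bool → Option Bool} {ω : V × Bool → Bool} {z : V} {K Tm T : ℕ} {E : Set V}

/-- D-steps with an event which is open at time `τ`: `≤ K + 1`. (Apply also to `G.mir`.) -/
theorem open_card (h : Ctx G σ m0 ω z K Tm E) (τ : ℕ) :
    Set.ncard {v | ∃ w, (dlA G σ m0 ω z (dl K) v w ∨ dlB G σ m0 ω z (dl K) v w) ∧ G.t v < τ ∧ τ < G.t w} ≤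
      K + 1 := Pool.Agent.W_a4f561_E.Cnt28.open_card h τ

theorem ctx_mir (h : Ctx G σ m0 ω z K Tm E) : Ctx G.mir σ.mir m0 ω z K Tm E :=
  Pool.Agent.W_a4f561_E.Cnt28.ctx_mir h

theorem dr_mir (h : Inv G σ) (hd : Dr G σ ω z σ1) : Dr G.mir σ.mir ω z σ1.mir :=
  Pool.Agent.W_a4f561_E.Cnt28.dr_mir h hd

theorem fin_mir {π : V → V} (h : Fin' G σ π) : Fin' G.mir σ.mir π :=
  Pool.Agent.W_a4f561_E.Cnt28.fin_mir h

/-- OWN COST of the path, if all events inside blocks of length `B` are satisfied. -/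
theorem own_bound (h : Ctx G σ m0 ω z K Tm E) (hd : Dr G σ ω z σ1) (hle : Le σ1 σk) (hk : Inv G σk)
    {m : ℕ} (hm : Set.ncard {c | m0 c ≠ none} ≤ m) {tl B Λ : ℕ} (htl : tl < G.t z) (hB : 1 ≤ B)
    (hblk : blk (Λ * B) tl Tm)
    (hA : ∀ v w, dlA G σ m0 ω z (dl K) v w → blk B (G.t v) (G.t w) → SatA G σ ω z σk v w)
    (hBt : ∀ v w, dlB G σ m0 ω z (dl K) v w → blk B (G.t v) (G.t w) → SatB G σ ω z σk v w) :
    ∀ π, Fin' G σk π → CB G π {v | OnB G σ ω z v} (own K m Λ) :=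
  Pool.Agent.W_a4f561_E.Own28.own_bound h hd hle hk hm htl hB hblk hA hBt

end Pool.Agent.W_a4f561_h26
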