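import Pool.Agent.W_a4f561_h26.Drw
import Pool.Agent.W_a4f561_h53.Cpl53c
import Pool.Agent.W_a4f561_E.Leg66

/-!
MP_a4f561_co (EpsPages): coupling `L1 ≤ L3` and legality of the calls. STUBS (helper53, helper66).
-/

set_option autoImplicit false

namespace Pool.Agent.W_a4f561_h26

variable {V : Type} [Fintype V] [DecidableEq V] {G : Bars V}
  {σ σ1 σk : St V} {m0 : V × Bool → Option Bool} {ω : V × Bool → Bool} {z : V} {K Tm T : ℕ} {E : Set V}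

/-- Pointwise coupling. `y` is the upper neighbour of the host `lo v` at time `τ` (D-step `v → lo v` of the path). -/
theorem couple (h : Ctx G σ m0 ω z K Tm E) (hd : Dr G σ ω z σ1) {w : V} (hw : OnB G σ ω z w)
    (hs : Stg G σ ω z σ1 σk (G.t w)) {v : V} (hv : Dst G σ ω z v) {τ : ℕ} (h1 : G.t v < τ)
    (h2 : τ ≤ G.t (G.lo v)) (hy : G.ub (G.lo v) τ ∉ σk.S) (ω' : V × Bool → Bool)
    (hh : ∃ u, OnB G σ ω z u ∧ G.t u ≤ G.t w ∧ Orb (lam G σ ω') (G.ub (G.lo v) τ) u) :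
    Suc G (call G σ ω z σk w) ω' (G.ub (G.lo v) τ) (tgt G σ ω z σ1 σk w) :=
  Pool.Agent.W_a4f561_h53.couple h hd hw hs hv h1 h2 hy ω' hh

/-- The restricted memory is as good as the memory (alpha). -/
theorem memA (h : Ctx G σ m0 ω z K Tm E) (hd : Dr G σ ω z σ1) {w : V} (hw : OnB G σ ω z w)
    (hs : Stg G σ ω z σ1 σk (G.t w)) {v : V} (hv : OnB G σ ω z v) {y : V} (hy : G.t v < G.t y)
    (F : Set V) (ω' : V × Bool → Bool) :
    Suc G (call G σ ω z σk w) (ov (mem G σ m0 ω z v) ω') y F ↔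
    Suc G (call G σ ω z σk w) (ov (mr G σ m0 ω z v) ω') y F :=
  Pool.Agent.W_a4f561_h53.memA h hd hw hs hv hy F ω'

/-- The restricted memory is as good as the memory with the coin of `v` accepted (beta): `lo v` is fresh. -/
theorem memB (h : Ctx G σ m0 ω z K Tm E) (hd : Dr G σ ω z σ1) {w : V} (hw : OnB G σ ω z w)
    (hs : Stg G σ ω z σ1 σk (G.t w)) {v : V} (hv : obB G σ ω z v) (hvw : G.t v < G.t w) {y : V}
    (hy : G.t v < G.t y) (F : Set V) (ω' : V × Bool → Bool) :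
    Suc G (call G σ ω z σk w) (ov (memc G σ m0 ω z v true) ω') y F ↔
    Suc G (call G σ ω z σk w) (ov (mr G σ m0 ω z v) ω') y F :=
  Pool.Agent.W_a4f561_h53.memB h hd hw hs hv hvw hy F ω'

/-- `P_F(hits B_(≤w)) ≤ P_(m')(success of the call)`, alpha. -/
theorem cplA (h : Ctx G σ m0 ω z K Tm E) (hd : Dr G σ ω z σ1) {w : V} (hw : OnB G σ ω z w)
    (hs : Stg G σ ω z σ1 σk (G.t w)) {v : V} (hv : Dst G σ ω z v) (hx : G.inn (G.lo v))
    (hy : G.flh v ∉ σk.S) :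
    pr (mem G σ m0 ω z v) (fun ω' => ∃ u, OnB G σ ω z u ∧ G.t u ≤ G.t w ∧ Orb (lam G σ ω') (G.flh v) u) ≤
    pr (mr G σ m0 ω z v) (fun ω' => Suc G (call G σ ω z σk w) ω' (G.flh v) (tgt G σ ω z σ1 σk w)) :=
  Pool.Agent.W_a4f561_h53.cplA h hd hw hs hv hx hy

/-- beta. -/
theorem cplB (h : Ctx G σ m0 ω z K Tm E) (hd : Dr G σ ω z σ1) {w : V} (hw : OnB G σ ω z w)
    (hs : Stg G σ ω z σ1 σk (G.t w)) {v : V} (hv : obB G σ ω z v) (hvw : G.t v < G.t w) {v' : V}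
    (hv' : G.inn v') (h1 : G.lo v' = G.lo v) (h2 : G.t v ≤ G.t v') (h3 : G.t v' + 1 < G.tau1 v)
    (hy : G.up v' ∉ σk.S) :
    pr (memc G σ m0 ω z v true)
      (fun ω' => ∃ u, OnB G σ ω z u ∧ G.t u ≤ G.t w ∧ Orb (lam G σ ω') (G.up v') u) ≤
    pr (mr G σ m0 ω z v) (fun ω' => Suc G (call G σ ω z σk w) ω' (G.up v') (tgt G σ ω z σ1 σk w)) :=
  Pool.Agent.W_a4f561_h53.cplB h hd hw hs hv hvw hv' h1 h2 h3 hy

/-- LEGALITY (helper66). -/
theorem call_inv (h : Ctx G σ m0 ω z K Tm E) (hd : Dr G σ ω z σ1) {w : V} (hw : OnB G σ ω z w)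
    (hs : Stg G σ ω z σ1 σk (G.t w)) : Inv G (call G σ ω z σk w) :=
  call_inv66 h hd hw hs

theorem call_lt (h : Ctx G σ m0 ω z K Tm E) (hd : Dr G σ ω z σ1) {w : V} (hw : OnB G σ ω z w)
    (hs : Stg G σ ω z σ1 σk (G.t w)) : Lt G (call G σ ω z σk w) (G.t w) :=
  call_lt66 h hd hw hs

theorem tgt_sub (h : Ctx G σ m0 ω z K Tm E) (hd : Dr G σ ω z σ1) {w : V} (hw : OnB G σ ω z w)
    (hs : Stg G σ ω z σ1 σk (G.t w)) :
    tgt G σ ω z σ1 σk w ⊆ (call G σ ω z σk w).S \ (call G σ ω z σk w).Lat ∧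
    ∀ e ∈ tgt G σ ω z σ1 σk w, G.t e ≤ G.t w :=
  tgt_sub66 h hd hs

theorem mr_true (h : Ctx G σ m0 ω z K Tm E) (v : V) : ∀ c, mr G σ m0 ω z v c ≠ some true :=
  mr_true66 v

/-- The stage after a call. -/
theorem stg_next (h : Ctx G σ m0 ω z K Tm E) (hd : Dr G σ ω z σ1) {w : V} (hw : OnB G σ ω z w)
    (hs : Stg G σ ω z σ1 σk (G.t w)) {σ' : St V} {tl : ℕ} {y : V} {C : ℕ}
    (hr : Res G (call G σ ω z σk w) σ' tl (G.t w) y (tgt G σ ω z σ1 σk w) C) :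
    Stg G σ ω z σ1 (σ'.setLat σ.Lat) (G.t w) ∧ Le σk (σ'.setLat σ.Lat) :=
  stg_next66 h hd hs hr

theorem stg_mono {T' : ℕ} (hs : Stg G σ ω z σ1 σk T) (h : T ≤ T') : Stg G σ ω z σ1 σk T' :=
  stg_mono66 hs h

end Pool.Agent.W_a4f561_h26
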