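import Pool.Agent.W_a4f561_h26.Evt1
import Pool.Agent.W_a4f561_E.AllEv98

/-!
MP_a4f561_co (EpsPages): all events (proofs of helper98).
-/

set_option autoImplicit false

namespace Pool.Agent.W_a4f561_h26

variable {V : Type} [Fintype V] [DecidableEq V] {G : Bars V}
  {σ σ1 σk : St V} {m0 : V × Bool → Option Bool} {ω : V × Bool → Bool} {z : V} {K Tm T C m B : ℕ} {E : Set V}

/-- Satisfied events stay satisfied. -/
theorem sat_mono {σ1' σk' : St V} (hI : Inv G σk) (hle : Le σk σk') {e : Bool × Bool × V} {w : V}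
    (hs : Sat G σ ω z σk e w) : Sat G σ ω z σk' e w :=
  Pool.Agent.W_a4f561_E.AllEv98.sat_mono hI hle hs

/-- ALL EVENTS inside blocks of length `B`, in the order of the deadlines. -/
theorem all_events (hE : EXT G B (dl K) (m + 2 * (K + 1)) C) (h : Ctx G σ m0 ω z K Tm E)
    (hm : Set.ncard {c | m0 c ≠ none} ≤ m) (hd : Dr G σ ω z σ1) :
    ∃ σk idx q ev, ∃ dt : ℕ → V, Tr G σ m0 ω z (dl K) σ1 σk C Tm idx q ev dt ∧
      ∀ e w, Ev G σ m0 ω z (dl K) e w → blk B (G.t e.2.2) (G.t w) → Sat G σ ω z σk e w :=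
  Pool.Agent.W_a4f561_E.AllEv98.all_events hE h hm hd

end Pool.Agent.W_a4f561_h26
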