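import Pool.Agent.W_a4f561_h26.Cpl
import Pool.Agent.W_a4f561_h26.Trk
import Pool.Agent.W_a4f561_h26.Cnt
import Pool.Agent.W_a4f561_E.Tr2

/-!
MP_a4f561_co (EpsPages): adding one tree, mirror images (proofs of helper2).
-/

set_option autoImplicit false

namespace Pool.Agent.W_a4f561_h26

variable {V : Type} [Fintype V] [DecidableEq V] {G : Bars V}
  {σ σ1 σk : St V} {m0 : V × Bool → Option Bool} {ω : V × Bool → Bool} {z : V} {K Tm T C m B : ℕ} {E : Set V}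

/-- Adding one tree. -/
theorem tr_add (h : Ctx G σ m0 ω z K Tm E) (hd : Dr G σ ω z σ1) {idx : V → ℕ} {q : ℕ}
    {ev : ℕ → Bool × Bool × V} {dt : ℕ → V} (hT : Tr G σ m0 ω z (dl K) σ1 σk C T idx q ev dt)
    {e : Bool × Bool × V} {w : V} (he : Ev G σ m0 ω z (dl K) e w) (hTw : T ≤ G.t w) {σ' : St V} {y : V}
    (hr : Res G (call G σ ω z σk w) σ' (G.t e.2.2) (G.t w) y (tgt G σ ω z σ1 σk w) C)
    (hsame : ∀ i, i < q → ev i = e → ∀ u ∈ σk.S \ σ1.S, idx u = i → G.t u < G.t y ∧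
      ∀ u' ∈ σ'.S \ σk.S, G.t u < G.t u') :
    ∃ idx' ev', ∃ dt' : ℕ → V, Tr G σ m0 ω z (dl K) σ1 (σ'.setLat σ.Lat) C (G.t w) idx' (q + 1) ev' dt' ∧
      (∀ u ∈ σk.S \ σ1.S, idx' u = idx u) ∧ (∀ i, i < q → ev' i = ev i) ∧ ev' q = e ∧
      (∀ u ∈ σ'.S \ σk.S, idx' u = q) :=
  Pool.Agent.W_a4f561_E.Tr2.tr_add h hd hT he hTw hr hsame

theorem ext_mir {κ : ℝ} {m C : ℕ} (h : EXT G B κ m C) : EXT G.mir B κ m C :=
  Pool.Agent.W_a4f561_E.Tr2.ext_mir h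

/-- The mirror image of the trees. -/
theorem tr_mir (h : Ctx G σ m0 ω z K Tm E) {idx : V → ℕ} {q : ℕ}
    {ev : ℕ → Bool × Bool × V} {dt : ℕ → V} (hT : Tr G σ m0 ω z (dl K) σ1 σk C T idx q ev dt) :
    Tr G.mir σ.mir m0 ω z (dl K) σ1.mir σk.mir C T idx q (fun i => (!(ev i).1, (ev i).2)) dt :=
  Pool.Agent.W_a4f561_E.Tr2.tr_mir h hT

end Pool.Agent.W_a4f561_h26
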