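import Pool.Agent.W_a4f561_h26.Evt0
import Pool.Agent.W_a4f561_E.EvA2
import Pool.Agent.W_a4f561_E.Evb25

/-!
MP_a4f561_co (EpsPages): processing one event.
-/

set_option autoImplicit false

namespace Pool.Agent.W_a4f561_h26

variable {V : Type} [Fintype V] [DecidableEq V] {G : Bars V}
  {σ σ1 σk : St V} {m0 : V × Bool → Option Bool} {ω : V × Bool → Bool} {z : V} {K Tm T C m B : ℕ} {E : Set V}

/-- Processing an alpha-event. -/
theorem evA (hE : EXT G B (dl K) (m + 2 * (K + 1)) C) (h : Ctx G σ m0 ω z K Tm E)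
    (hm : Set.ncard {c | m0 c ≠ none} ≤ m) (hd : Dr G σ ω z σ1) {idx : V → ℕ} {q : ℕ}
    {ev : ℕ → Bool × Bool × V} {dt : ℕ → V} (hT : Tr G σ m0 ω z (dl K) σ1 σk C T idx q ev dt)
    {v w : V} (hv : dlA G σ m0 ω z (dl K) v w) (hb : blk B (G.t v) (G.t w)) (hTw : T ≤ G.t w)
    (hn : ∀ i, i < q → ev i ≠ (false, false, v)) :
    ∃ σk' idx' q' ev', ∃ dt' : ℕ → V, Le σk σk' ∧ Tr G σ m0 ω z (dl K) σ1 σk' C (G.t w) idx' q' ev' dt' ∧
      (∀ i, i < q' → (∃ j, j < q ∧ ev' i = ev j) ∨ ev' i = (false, false, v)) ∧ SatA G σ ω z σk' v w :=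
  Pool.Agent.W_a4f561_E.EvA2.evA hE h hm hd hT hv hb hTw hn

/-- Processing a beta-event (the loop over the exposed heads). -/
theorem evB (hE : EXT G B (dl K) (m + 2 * (K + 1)) C) (h : Ctx G σ m0 ω z K Tm E)
    (hm : Set.ncard {c | m0 c ≠ none} ≤ m) (hd : Dr G σ ω z σ1) {idx : V → ℕ} {q : ℕ}
    {ev : ℕ → Bool × Bool × V} {dt : ℕ → V} (hT : Tr G σ m0 ω z (dl K) σ1 σk C T idx q ev dt)
    {v w : V} (hv : dlB G σ m0 ω z (dl K) v w) (hb : blk B (G.t v) (G.t w)) (hTw : T ≤ G.t w)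
    (hn : ∀ i, i < q → ev i ≠ (false, true, v)) :
    ∃ σk' idx' q' ev', ∃ dt' : ℕ → V, Le σk σk' ∧ Tr G σ m0 ω z (dl K) σ1 σk' C (G.t w) idx' q' ev' dt' ∧
      (∀ i, i < q' → (∃ j, j < q ∧ ev' i = ev j) ∨ ev' i = (false, true, v)) ∧ SatB G σ ω z σk' v w :=
  Pool.Agent.W_a4f561_E.Evb25.evB hE h hm hd hT hv hb hTw hn

end Pool.Agent.W_a4f561_h26
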