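import Pool.Agent.W_a4f561_E.Main8

/-!
MP_a4f561_co (EpsPages): the theorem for bars. STUB.
-/

set_option autoImplicit false

namespace Pool.Agent.W_a4f561_h26

/-- MAIN THEOREM FOR BARS: for every `R ≥ 1` an order with twists of at most
`2^(a R^2) (log2 n + 1)^(R + 3) (N + 2)^(1/R)` edges (`Λ` with `Λ^R ≥ N + 2`). -/
theorem bars_main : ∃ a : ℕ, ∀ (V : Type) [Fintype V] [DecidableEq V] (G : Bars V) (R Λ : ℕ), 1 ≤ R →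
    G.N + 2 ≤ Λ ^ R → G.N ≤ 8 * Fintype.card V →
    ∃ σ : V → ℕ, Function.Injective σ ∧ (∀ x y, G.vis x y → σ x < σ y) ∧
      ∀ T : Finset (V × V), (∀ e ∈ T, G.vis e.1 e.2) →
        (∀ e ∈ T, ∀ e' ∈ T, e ≠ e' →
          (σ e.1 < σ e'.1 ∧ σ e'.1 < σ e.2 ∧ σ e.2 < σ e'.2) ∨
          (σ e'.1 < σ e.1 ∧ σ e.1 < σ e'.2 ∧ σ e'.2 < σ e.2)) →
        T.card ≤ 2 ^ (a * R ^ 2) * (Nat.log 2 (Fintype.card V) + 1) ^ (R + 3) * Λ :=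
  Pool.Agent.W_a4f561_E.M8.bars_main

end Pool.Agent.W_a4f561_h26
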