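import Pool.Agent.W_a4f561_h26.Bas
import Pool.Agent.W_a4f561_E.Hrm73

/-!
MP_a4f561_co (EpsPages): harm lemma. STUBS (helper70, helper73).
-/

set_option autoImplicit false

namespace Pool.Agent.W_a4f561_h26

variable {V : Type} [Fintype V] [DecidableEq V] {G : Bars V}

/-- HARM LEMMA. `hD`: a vertex declared D goes to a vertex of `S` or its upper neighbour outlives its lower one. -/
theorem harm (G : Bars V) (σ : St V) (hI : Inv G σ)
    (hD : ∀ u ∈ σ.Dec, u ∉ σ.S → σ.pi u = G.lo u → G.lo u ∉ σ.S → G.t (G.lo u) < G.t (G.up u))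
    (m0 : V × Bool → Option Bool) (hm : ∀ c, m0 c ≠ some true) {z w : V} (hz : z ∉ σ.S) (hw : w ∉ σ.S) (K : ℕ) :
    pr m0 (fun ω => Orb (lam G σ ω) z w ∧ K + 1 ≤ cnt G σ m0 ω z (dl K) w) ≤ (100 / 101 : ℝ) ^ (K + 1) :=
  Pool.Agent.W_a4f561_E73.harm G σ hI hD m0 hm hz hw K

end Pool.Agent.W_a4f561_h26
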