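import Pool.Agent.W_a4f561_h26.Stp

/-!
MP_a4f561_co (EpsPages): the recursion over the levels and its arithmetic (helper97).
-/

set_option autoImplicit false

namespace Pool.Agent.W_a4f561_h26

variable {V : Type} [Fintype V] [DecidableEq V]

/-- The cost of `s` levels with success probability `2^(-e)`, memory `m`, `L = log2 (card V) + 1`. -/
def cst (L Λ : ℕ) : ℕ → ℕ → ℕ → ℕ
  | 0, _, _ => 0
  | s + 1, e, m => (4 * (70 * (e + L + 3)) + 5) * cst L Λ s (2 * (70 * (e + L + 3)) + 11) (m + 2 * (70 * (e + L + 3) + 1)) +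
      own (70 * (e + L + 3)) m Λ

theorem q70 : (100 / 101 : ℝ) ^ 70 ≤ 1 / 2 := by norm_num

theorem q70k (k : ℕ) : (100 / 101 : ℝ) ^ (70 * k) ≤ (1 / 2) ^ k := by
  rw [pow_mul]
  exact pow_le_pow_left₀ (by positivity) q70 k

omit [DecidableEq V] in
/-- `K = 70 (e + L + 3)` is large enough. -/
theorem k_large (e : ℕ) : 2 * (Fintype.card V : ℝ) *
    (100 / 101 : ℝ) ^ (70 * (e + (Nat.log 2 (Fintype.card V) + 1) + 3) + 1) < (1 / 2 : ℝ) ^ e := by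
  obtain ⟨a, ha⟩ : ∃ a : ℕ, a = Nat.log 2 (Fintype.card V) + 1 := ⟨_, rfl⟩
  have hn : Fintype.card V < 2 ^ a := by
    rw [ha]
    exact Nat.lt_pow_succ_log_self (by norm_num) _
  rw [← ha]
  have hnR : (Fintype.card V : ℝ) < 2 ^ a := by exact_mod_cast hn
  have h1 : (100 / 101 : ℝ) ^ (70 * (e + a + 3) + 1) ≤ (1 / 2) ^ e * (1 / 2) ^ a * (1 / 2) ^ 3 := by
    calc (100 / 101 : ℝ) ^ (70 * (e + a + 3) + 1) ≤ (100 / 101 : ℝ) ^ (70 * (e + a + 3)) :=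
          pow_le_pow_of_le_one (by norm_num) (by norm_num) (Nat.le_succ _)
      _ ≤ (1 / 2) ^ (e + a + 3) := q70k _
      _ = _ := by rw [pow_add, pow_add]
  have h2 : (Fintype.card V : ℝ) * (1 / 2) ^ a < 1 := by
    calc (Fintype.card V : ℝ) * (1 / 2) ^ a < 2 ^ a * (1 / 2) ^ a := mul_lt_mul_of_pos_right hnR (by positivity)
      _ = 1 := by rw [← mul_pow]; norm_num
  have h3 : (0 : ℝ) < (1 / 2) ^ e := by positivity
  calc 2 * (Fintype.card V : ℝ) * (100 / 101 : ℝ) ^ (70 * (e + a + 3) + 1) ≤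
      2 * (Fintype.card V : ℝ) * ((1 / 2) ^ e * (1 / 2) ^ a * (1 / 2) ^ 3) :=
        mul_le_mul_of_nonneg_left h1 (by positivity)
    _ = (1 / 4 * ((Fintype.card V : ℝ) * (1 / 2) ^ a)) * (1 / 2) ^ e := by ring
    _ < 1 * (1 / 2) ^ e := mul_lt_mul_of_pos_right (by linarith) h3
    _ = (1 / 2) ^ e := one_mul _

theorem dl_ge (K : ℕ) : (1 / 2 : ℝ) ^ (2 * K + 11) ≤ dl K := by
  have h1 : (1 / 2 : ℝ) ^ K ≤ (100 / 101 : ℝ) ^ (2 * K) := by
    rw [pow_mul]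
    exact pow_le_pow_left₀ (by norm_num) (by norm_num) K
  have h2 : (1 / 2 : ℝ) ^ (2 * K + 11) = (1 / 2) ^ K * ((1 / 2) ^ K * (1 / 2) ^ 11) := by
    rw [pow_add, two_mul, pow_add, mul_assoc]
  have h3 : (1 / 2 : ℝ) ^ K * (1 / 2) ^ 11 ≤ (100 / 101 : ℝ) ^ (2 * K) * ((1 / 1000) * (100 / 101 : ℝ) ^ 2) :=
    mul_le_mul h1 (by norm_num) (by positivity) (by positivity)
  have h4 : dl K = (1 / 2) ^ K * ((100 / 101 : ℝ) ^ (2 * K) * ((1 / 1000) * (100 / 101 : ℝ) ^ 2)) := by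
    unfold dl
    rw [show 2 * (K + 1) = 2 * K + 2 by ring, pow_add (100 / 101 : ℝ) (2 * K) 2]
    ring
  rw [h2, h4]
  exact mul_le_mul_of_nonneg_left h3 (by positivity)

/-- All levels. -/
theorem ext_all (G : Bars V) (Λ : ℕ) (hΛ : 1 ≤ Λ) (s e m : ℕ) :
    EXT G (Λ ^ s) ((1 / 2 : ℝ) ^ e) m (cst (Nat.log 2 (Fintype.card V) + 1) Λ s e m) := by
  induction s generalizing e m with
  | zero => simpa using ext_zero G ((1 / 2 : ℝ) ^ e) m (cst (Nat.log 2 (Fintype.card V) + 1) Λ 0 e m) (by positivity)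
  | succ s ih =>
    obtain ⟨K, hK⟩ : ∃ K : ℕ, K = 70 * (e + (Nat.log 2 (Fintype.card V) + 1) + 3) := ⟨_, rfl⟩
    have h1 := ih (2 * K + 11) (m + 2 * (K + 1))
    have h2 := ext_anti h1 (dl_ge K) le_rfl le_rfl
    have h3 := k_large (V := V) e
    rw [← hK] at h3
    have h4 := ext_step (Λ := Λ) (m := m) (Nat.one_le_pow s Λ hΛ) h3 h2
    rw [pow_succ, mul_comm (Λ ^ s) Λ]
    have h5 : cst (Nat.log 2 (Fintype.card V) + 1) Λ (s + 1) e m =
        (4 * K + 5) * cst (Nat.log 2 (Fintype.card V) + 1) Λ s (2 * K + 11) (m + 2 * (K + 1)) + own K m Λ := by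
      rw [hK]
      rfl
    rw [h5]
    exact h4

theorem cst_bound {L Λ : ℕ} (hL : 1 ≤ L) (hΛ : 1 ≤ Λ) (Z s e m Y : ℕ) (he : e ≤ 5 * Y) (hm : m ≤ 4 * Y)
    (hLY : L ≤ Y) (hZ : 1024 ^ s * Y ≤ Z) : cst L Λ s e m ≤ (8192 * Z) ^ s * Λ := by
  induction s generalizing e m Y with
  | zero =>
    show 0 ≤ _
    exact Nat.zero_le _
  | succ s ih =>
    obtain ⟨K, hK⟩ : ∃ K : ℕ, K = 70 * (e + L + 3) := ⟨_, rfl⟩
    have hK1 : K ≤ 630 * Y := by omega
    have h1 := ih (2 * K + 11) (m + 2 * (K + 1)) (1024 * Y) (by omega) (by omega) (by omega) (by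
      rw [pow_succ] at hZ
      calc 1024 ^ s * (1024 * Y) = 1024 ^ s * 1024 * Y := by ring
        _ ≤ Z := hZ)
    have hYZ : Y ≤ Z := by
      have : 1 ≤ 1024 ^ (s + 1) := Nat.one_le_pow _ _ (by norm_num)
      calc Y = 1 * Y := (one_mul Y).symm
        _ ≤ 1024 ^ (s + 1) * Y := Nat.mul_le_mul_right Y this
        _ ≤ Z := hZ
    have hZ1 : 1 ≤ Z := by omega
    have hX : 1 ≤ (8192 * Z) ^ s := Nat.one_le_pow _ _ (by omega)
    obtain ⟨X, hXd⟩ : ∃ X : ℕ, X = (8192 * Z) ^ s * Λ := ⟨_, rfl⟩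
    have hΛX : Λ ≤ X := by
      rw [hXd]
      exact Nat.le_mul_of_pos_left _ hX
    rw [← hXd] at h1
    have hown : own K m Λ ≤ 4096 * Z * X := by
      have g1 : (K + 1) * (Λ + 1) ≤ (631 * Z) * (2 * X) := Nat.mul_le_mul (by omega) (by omega)
      have g2 : Z ≤ Z * X := Nat.le_mul_of_pos_right _ (by omega)
      have g3 : (631 * Z) * (2 * X) = 1262 * (Z * X) := by ring
      have g4 : 4096 * Z * X = 4096 * (Z * X) := by ring
      unfold own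
      omega
    have hmain : (4 * K + 5) * cst L Λ s (2 * K + 11) (m + 2 * (K + 1)) ≤ 2525 * Z * X :=
      Nat.mul_le_mul (by omega) h1
    have h5 : cst L Λ (s + 1) e m =
        (4 * K + 5) * cst L Λ s (2 * K + 11) (m + 2 * (K + 1)) + own K m Λ := by
      rw [hK]
      rfl
    rw [h5]
    calc (4 * K + 5) * cst L Λ s (2 * K + 11) (m + 2 * (K + 1)) + own K m Λ ≤ 2525 * Z * X + 4096 * Z * X := by omega
      _ = 6621 * (Z * X) := by ring
      _ ≤ 8192 * (Z * X) := Nat.mul_le_mul_right _ (by norm_num)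
      _ = (8192 * Z) ^ (s + 1) * Λ := by rw [hXd, pow_succ]; ring

/-- The arithmetic: an absolute constant `a`. -/
theorem cst_le : ∃ a : ℕ, ∀ L Λ R : ℕ, 1 ≤ L → 1 ≤ Λ → 1 ≤ R →
    cst L Λ R 0 0 ≤ 2 ^ (a * R ^ 2) * L ^ (R + 1) * Λ := by
  refine ⟨23, fun L Λ R hL hΛ hR => ?_⟩
  have h1 := cst_bound hL hΛ (1024 ^ R * L) R 0 0 L (by omega) (by omega) le_rfl le_rfl
  refine h1.trans (Nat.mul_le_mul_right Λ ?_)
  have h2 : (8192 * (1024 ^ R * L)) ^ R = 2 ^ (13 * R + 10 * R * R) * L ^ R := by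
    rw [mul_pow, mul_pow, ← pow_mul, pow_add, show (8192 : ℕ) = 2 ^ 13 by norm_num, ← pow_mul,
      show (1024 : ℕ) = 2 ^ 10 by norm_num, ← pow_mul]
    ring
  rw [h2]
  refine Nat.mul_le_mul (Nat.pow_le_pow_right (by norm_num) ?_) (Nat.pow_le_pow_right hL (by omega))
  nlinarith

end Pool.Agent.W_a4f561_h26
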