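import Pool.Agent.W_a4f561_h26.Bas
import Pool.Agent.W_a4f561_E.Root8

/-!
MP_a4f561_co (EpsPages): the roots in rounds. STUB (helper33). Uses Pool.Agent.W_a4f561_h33.Rnd33.
-/

set_option autoImplicit false

namespace Pool.Agent.W_a4f561_h26

variable {V : Type} [Fintype V] [DecidableEq V]

/-- All roots: start state `S = {bot, top}`, then the vertices in the order of the rounds. Two vertices of one round
are separated: their final routes meet only in vertices which were drawn before the round. -/
theorem roots (G : Bars V) {B C : ℕ} (hB : G.N + 2 ≤ B) (hE : EXT G B 1 0 C) :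
    ∃ π, Ch G π ∧
      CB G π Set.univ ((Nat.log 2 (G.N + 1) + 1) * (Nat.log 2 (Fintype.card V) + 1) * C) ∧
      CB G.mir π Set.univ ((Nat.log 2 (G.N + 1) + 1) * (Nat.log 2 (Fintype.card V) + 1) * C) :=
  Pool.Agent.W_a4f561_E.R8.roots8 G hB hE

end Pool.Agent.W_a4f561_h26
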