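import Pool.Agent.W_a4f561_h26.Evt
import Pool.Agent.W_a4f561_h26.Chn
import Pool.Agent.W_a4f561_E.Stp58

/-!
MP_a4f561_co (EpsPages): one level of the recursion. STUBS.
-/

set_option autoImplicit false

namespace Pool.Agent.W_a4f561_h26

variable {V : Type} [Fintype V] [DecidableEq V] {G : Bars V}

/-- Level 0 is empty: a block of length 1 contains no time strictly between its ends. -/
theorem ext_zero (G : Bars V) (κ : ℝ) (m C : ℕ) (hκ : 0 < κ) : EXT G 1 κ m C :=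
  Pool.Agent.W_a4f561_E.Stp58.ext_zero G κ m C hκ

theorem ext_anti {B : ℕ} {κ κ' : ℝ} {m m' C C' : ℕ} (h : EXT G B κ m C) (hκ : κ ≤ κ') (hm : m' ≤ m)
    (hC : C ≤ C') : EXT G B κ' m' C' :=
  Pool.Agent.W_a4f561_E.Stp58.ext_anti h hκ hm hC

/-- ONE LEVEL. -/
theorem ext_step {B Λ K m C : ℕ} {κ : ℝ} (hB : 1 ≤ B)
    (hK : 2 * (Fintype.card V : ℝ) * (100 / 101 : ℝ) ^ (K + 1) < κ)
    (hE : EXT G B (dl K) (m + 2 * (K + 1)) C) : EXT G (Λ * B) κ m ((4 * K + 5) * C + own K m Λ) :=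
  Pool.Agent.W_a4f561_E.Stp58.ext_step hB hK hE

end Pool.Agent.W_a4f561_h26
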